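import Mathlib

/-!
# MP_f2e772_gt: the pointwise inequality
-/

noncomputable section

open scoped InnerProductSpace

namespace CondR

variable {V : Type*} [NormedAddCommGroup V] [InnerProductSpace ℝ V]

theorem pair_bound {A B C : V} {κ : ℝ} (hp : ‖A + B + (2 : ℝ) • C‖ ≤ 2 * κ)
    (hm : ‖A + B - (2 : ℝ) • C‖ ≤ 2 * κ) :
    ⟪A, A⟫_ℝ + ⟪B, B⟫_ℝ + 2 * ⟪A, B⟫_ℝ + 4 * ⟪C, C⟫_ℝ ≤ 4 * κ ^ 2 := by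
  have h1 : ‖A + B + (2 : ℝ) • C‖ ^ 2 ≤ (2 * κ) ^ 2 := by
    gcongr
  have h2 : ‖A + B - (2 : ℝ) • C‖ ^ 2 ≤ (2 * κ) ^ 2 := by
    gcongr
  rw [← real_inner_self_eq_norm_sq] at h1 h2
  simp only [inner_add_left, inner_add_right, inner_sub_left, inner_sub_right,
    real_inner_smul_left, real_inner_smul_right, real_inner_comm A B, real_inner_comm A C,
    real_inner_comm B C] at h1 h2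
  linarith

theorem final_ineq (x A00 A11 A22 A01 A02 A12 : V) {κ T y3 : ℝ}
    (hκ : κ ^ 2 < 9 / 5) (h0 : ‖A00‖ ≤ κ) (h1 : ‖A11‖ ≤ κ) (h2 : ‖A22‖ ≤ κ)
    (hp01 : ‖A00 + A11 + (2 : ℝ) • A01‖ ≤ 2 * κ) (hm01 : ‖A00 + A11 - (2 : ℝ) • A01‖ ≤ 2 * κ)
    (hp02 : ‖A00 + A22 + (2 : ℝ) • A02‖ ≤ 2 * κ) (hm02 : ‖A00 + A22 - (2 : ℝ) • A02‖ ≤ 2 * κ)
    (hp12 : ‖A11 + A22 + (2 : ℝ) • A12‖ ≤ 2 * κ) (hm12 : ‖A11 + A22 - (2 : ℝ) • A12‖ ≤ 2 * κ)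
    (hT : T ≤ (1 - ‖x‖ ^ 2) / 2) (hy : y3 ^ 2 ≤ T) (hTx : T ≤ ‖x‖ ^ 2)
    (hH : ⟪x, A00 + A11 + A22⟫_ℝ ^ 2 ≤ (‖x‖ ^ 2 - T) * ‖A00 + A11 + A22‖ ^ 2) :
    0 < (⟪A00, A11⟫_ℝ - ⟪A01, A01⟫_ℝ) + (⟪A00, A22⟫_ℝ - ⟪A02, A02⟫_ℝ) +
      (⟪A11, A22⟫_ℝ - ⟪A12, A12⟫_ℝ) + 2 * (9 / 4) * (3 + ⟪x, A00 + A11 + A22⟫_ℝ) -
      (9 / 4) ^ 2 * T - 2 * (9 / 4) ^ 2 * y3 ^ 2 := by
  have q0 : ⟪A00, A00⟫_ℝ ≤ κ ^ 2 := by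
    rw [real_inner_self_eq_norm_sq]; gcongr
  have q1 : ⟪A11, A11⟫_ℝ ≤ κ ^ 2 := by
    rw [real_inner_self_eq_norm_sq]; gcongr
  have q2 : ⟪A22, A22⟫_ℝ ≤ κ ^ 2 := by
    rw [real_inner_self_eq_norm_sq]; gcongr
  have p01 := pair_bound hp01 hm01
  have p02 := pair_bound hp02 hm02
  have p12 := pair_bound hp12 hm12
  have hh : ‖A00 + A11 + A22‖ ^ 2 = ⟪A00, A00⟫_ℝ + ⟪A11, A11⟫_ℝ + ⟪A22, A22⟫_ℝ +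
      2 * (⟪A00, A11⟫_ℝ + ⟪A00, A22⟫_ℝ + ⟪A11, A22⟫_ℝ) := by
    rw [← real_inner_self_eq_norm_sq]
    simp only [inner_add_left, inner_add_right, real_inner_comm A00 A11,
      real_inner_comm A00 A22, real_inner_comm A11 A22]
    ring
  set m := ⟪x, A00 + A11 + A22⟫_ℝ
  set h2 := ‖A00 + A11 + A22‖ ^ 2
  have hh2 : 0 ≤ h2 := by positivity
  set n2 := ‖x‖ ^ 2 - T with hn2
  have hn0 : 0 ≤ n2 := by linarith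
  have key : (9 / 2 * m) ^ 2 ≤ (3 / 4 * h2 + 27 / 4 * n2) ^ 2 := by
    nlinarith [sq_nonneg (3 / 4 * h2 - 27 / 4 * n2)]
  have key2 : |9 / 2 * m| ≤ 3 / 4 * h2 + 27 / 4 * n2 :=
    abs_le_of_sq_le_sq key (by positivity)
  have key3 := (abs_le.1 key2).1
  nlinarith
 
end CondR
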