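import Pool.Agent.CondR.Gauss

/-!
# MP_f2e772_gt: the light cone map

For `F : E → V` put `ρ = |F|²/2` and `Q = (F, 1/2 - ρ, 1/2 + ρ)`.  With the bilinear form
`B = ⟪,⟫ + a a' - b b'` the map `P = exp (-kρ) Q` induces the metric `exp (-2kρ) F^*g`, and the
Gauss equation computes its curvature.
-/

set_option linter.unusedSectionVars false

noncomputable section

open scoped ContDiff Manifold ENNReal InnerProductSpace Topology

namespace CondR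

variable {E : Type*} [NormedAddCommGroup E] [NormedSpace ℝ E]

section Deriv

variable {W : Type*} [NormedAddCommGroup W] [NormedSpace ℝ W]

theorem D2_eq {P : E → W} {x : E} (hP : ContDiffAt ℝ 3 P x) (a b : E) :
    D2 P x a b = fderiv ℝ (fun z => fderiv ℝ P z b) x a := by
  rw [(hasFDerivAt_D1 hP b).fderiv]
  rfl

theorem fderiv_smul_ev {c : E → ℝ} {Q : E → W} {x : E} (hc : DifferentiableAt ℝ c x)
    (hQ : DifferentiableAt ℝ Q x) (b : E) :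
    fderiv ℝ (fun y => c y • Q y) x b = c x • fderiv ℝ Q x b + fderiv ℝ c x b • Q x := by
  rw [fderiv_fun_smul hc hQ]
  simp

theorem D2_smul {c : E → ℝ} {Q : E → W} {x : E} (hc : ContDiffAt ℝ 3 c x)
    (hQ : ContDiffAt ℝ 3 Q x) (a b : E) :
    D2 (fun y => c y • Q y) x a b = c x • D2 Q x a b + fderiv ℝ c x a • fderiv ℝ Q x b +
      fderiv ℝ c x b • fderiv ℝ Q x a + D2 c x a b • Q x := by
  rw [D2_eq (P := fun y => c y • Q y) (hc.smul hQ)]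
  have h1 : (fun z => fderiv ℝ (fun y => c y • Q y) z b) =ᶠ[𝓝 x]
      fun z => c z • fderiv ℝ Q z b + fderiv ℝ c z b • Q z := by
    filter_upwards [eventually_cd hc, eventually_cd hQ] with z hz1 hz2
    exact fderiv_smul_ev (diff1 hz1) (diff1 hz2) b
  rw [h1.fderiv_eq, fderiv_fun_add
    ((diff1 hc).fun_smul (hasFDerivAt_D1 hQ b).differentiableAt)
    ((hasFDerivAt_D1 hc b).differentiableAt.fun_smul (diff1 hQ)), _root_.add_apply,
    fderiv_smul_ev (diff1 hc) (hasFDerivAt_D1 hQ b).differentiableAt,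
    fderiv_smul_ev (hasFDerivAt_D1 hc b).differentiableAt (diff1 hQ), ← D2_eq hc, ← D2_eq hQ]
  abel

variable {V : Type*} [NormedAddCommGroup V] [InnerProductSpace ℝ V]

/-- Half the square of the distance to the origin. -/
def rho (F : E → V) (y : E) : ℝ := ‖F y‖ ^ 2 / 2

theorem rho_eq (F : E → V) (y : E) : rho F y = (1 / 2) * ⟪F y, F y⟫_ℝ := by
  rw [rho, real_inner_self_eq_norm_sq]; ring

theorem cd_rho {F : E → V} {x : E} (hF : ContDiffAt ℝ 3 F x) : ContDiffAt ℝ 3 (rho F) x := by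
  have : rho F = fun y => (1 / 2 : ℝ) * ⟪F y, F y⟫_ℝ := funext (rho_eq F)
  rw [this]
  exact contDiffAt_const.mul (hF.inner ℝ hF)

theorem fderiv_rho {F : E → V} {x : E} (hF : DifferentiableAt ℝ F x) (a : E) :
    fderiv ℝ (rho F) x a = ⟪F x, fderiv ℝ F x a⟫_ℝ := by
  have : rho F = fun y => (1 / 2 : ℝ) * ⟪F y, F y⟫_ℝ := funext (rho_eq F)
  rw [this, fderiv_const_mul (hF.inner ℝ hF), _root_.smul_apply, fderiv_inner_apply ℝ hF hF,
    real_inner_comm (F x) (fderiv ℝ F x a)]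
  simp
  ring

theorem D2_rho {F : E → V} {x : E} (hF : ContDiffAt ℝ 3 F x) (a b : E) :
    D2 (rho F) x a b = ⟪fderiv ℝ F x a, fderiv ℝ F x b⟫_ℝ + ⟪F x, D2 F x a b⟫_ℝ := by
  rw [D2_eq (cd_rho hF)]
  have h1 : (fun z => fderiv ℝ (rho F) z b) =ᶠ[𝓝 x] fun z => ⟪F z, fderiv ℝ F z b⟫_ℝ := by
    filter_upwards [eventually_cd hF] with z hz
    exact fderiv_rho (diff1 hz) b
  rw [h1.fderiv_eq, fderiv_inner_apply ℝ (diff1 hF) (hasFDerivAt_D1 hF b).differentiableAt,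
    ← D2_eq hF]
  ring

end Deriv

section Cone

variable {V : Type*} [NormedAddCommGroup V] [InnerProductSpace ℝ V]

/-- The inner product as a continuous bilinear map. -/
def innerB (V : Type*) [NormedAddCommGroup V] [InnerProductSpace ℝ V] : V →L[ℝ] V →L[ℝ] ℝ :=
  LinearMap.mkContinuous₂ (innerₗ V) 1 fun v w => by
    simpa using abs_real_inner_le_norm v w

theorem innerB_apply (v w : V) : innerB V v w = ⟪v, w⟫_ℝ := rfl

/-- The Lorentzian form on `V × ℝ × ℝ`. -/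
def Bf (V : Type*) [NormedAddCommGroup V] [InnerProductSpace ℝ V] :
    (V × ℝ × ℝ) →L[ℝ] (V × ℝ × ℝ) →L[ℝ] ℝ :=
  (innerB V).bilinearComp (ContinuousLinearMap.fst ℝ V (ℝ × ℝ))
      (ContinuousLinearMap.fst ℝ V (ℝ × ℝ)) +
    (ContinuousLinearMap.mul ℝ ℝ).bilinearComp
      ((ContinuousLinearMap.fst ℝ ℝ ℝ).comp (ContinuousLinearMap.snd ℝ V (ℝ × ℝ)))
      ((ContinuousLinearMap.fst ℝ ℝ ℝ).comp (ContinuousLinearMap.snd ℝ V (ℝ × ℝ))) -
    (ContinuousLinearMap.mul ℝ ℝ).bilinearComp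
      ((ContinuousLinearMap.snd ℝ ℝ ℝ).comp (ContinuousLinearMap.snd ℝ V (ℝ × ℝ)))
      ((ContinuousLinearMap.snd ℝ ℝ ℝ).comp (ContinuousLinearMap.snd ℝ V (ℝ × ℝ)))

theorem Bf_apply (w w' : V × ℝ × ℝ) :
    Bf V w w' = ⟪w.1, w'.1⟫_ℝ + w.2.1 * w'.2.1 - w.2.2 * w'.2.2 := by
  simp [Bf, innerB_apply]

theorem Bf_symm (w w' : V × ℝ × ℝ) : Bf V w w' = Bf V w' w := by
  rw [Bf_apply, Bf_apply, real_inner_comm]
  ring

/-- The light cone map. -/
def QQ (F : E → V) (y : E) : V × ℝ × ℝ := (F y, 1 / 2 - rho F y, 1 / 2 + rho F y)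

theorem cd_QQ {F : E → V} {x : E} (hF : ContDiffAt ℝ 3 F x) : ContDiffAt ℝ 3 (QQ F) x :=
  hF.prodMk ((contDiffAt_const.sub (cd_rho hF)).prodMk (contDiffAt_const.add (cd_rho hF)))

theorem fderiv_QQ {F : E → V} {x : E} (hF : ContDiffAt ℝ 3 F x) (a : E) :
    fderiv ℝ (QQ F) x a = (fderiv ℝ F x a, -⟪F x, fderiv ℝ F x a⟫_ℝ,
      ⟪F x, fderiv ℝ F x a⟫_ℝ) := by
  have h1 := (diff1 hF).hasFDerivAt
  have h2 := (diff1 (cd_rho hF)).hasFDerivAt
  have h3 : HasFDerivAt (QQ F) ((fderiv ℝ F x).prod ((-fderiv ℝ (rho F) x).prod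
      (fderiv ℝ (rho F) x))) x :=
    h1.prodMk ((h2.const_sub (1 / 2)).prodMk (h2.const_add (1 / 2)))
  rw [h3.fderiv]
  simp [fderiv_rho (diff1 hF)]

theorem D2_QQ {F : E → V} {x : E} (hF : ContDiffAt ℝ 3 F x) (a b : E) :
    D2 (QQ F) x a b = (D2 F x a b, -D2 (rho F) x a b, D2 (rho F) x a b) := by
  rw [D2_eq (cd_QQ hF)]
  have h1 : (fun z => fderiv ℝ (QQ F) z b) =ᶠ[𝓝 x] fun z => (fderiv ℝ F z b,
      -fderiv ℝ (rho F) z b, fderiv ℝ (rho F) z b) := by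
    filter_upwards [eventually_cd hF] with z hz
    rw [fderiv_QQ hz, fderiv_rho (diff1 hz)]
  have h2 := hasFDerivAt_D1 hF b
  have h3 := hasFDerivAt_D1 (cd_rho hF) b
  rw [h1.fderiv_eq, (h2.prodMk (h3.fun_neg.prodMk h3)).fderiv]
  simp [D2]

variable {F : E → V} {x : E}

theorem B_QQ : Bf V (QQ F x) (QQ F x) = 0 := by
  rw [Bf_apply]
  simp only [QQ, real_inner_self_eq_norm_sq, rho]
  ring

theorem B_Q_D1 (hF : ContDiffAt ℝ 3 F x) (a : E) :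
    Bf V (QQ F x) (fderiv ℝ (QQ F) x a) = 0 := by
  rw [Bf_apply, fderiv_QQ hF]
  simp only [QQ]
  ring

theorem B_Q_D2 (hF : ContDiffAt ℝ 3 F x) (a b : E) :
    Bf V (QQ F x) (D2 (QQ F) x a b) = -⟪fderiv ℝ F x a, fderiv ℝ F x b⟫_ℝ := by
  rw [Bf_apply, D2_QQ hF, D2_rho hF]
  simp only [QQ]
  ring

theorem B_D1_D1 (hF : ContDiffAt ℝ 3 F x) (a b : E) :
    Bf V (fderiv ℝ (QQ F) x a) (fderiv ℝ (QQ F) x b) =
      ⟪fderiv ℝ F x a, fderiv ℝ F x b⟫_ℝ := by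
  rw [Bf_apply, fderiv_QQ hF, fderiv_QQ hF]
  ring

theorem B_D1_D2 (hF : ContDiffAt ℝ 3 F x) (a b c : E) :
    Bf V (fderiv ℝ (QQ F) x a) (D2 (QQ F) x b c) = ⟪fderiv ℝ F x a, D2 F x b c⟫_ℝ := by
  rw [Bf_apply, fderiv_QQ hF, D2_QQ hF]
  ring

theorem B_D2_D2 (hF : ContDiffAt ℝ 3 F x) (a b c d : E) :
    Bf V (D2 (QQ F) x a b) (D2 (QQ F) x c d) = ⟪D2 F x a b, D2 F x c d⟫_ℝ := by
  rw [Bf_apply, D2_QQ hF, D2_QQ hF]
  ring

/-! ### The conformal factor -/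

/-- The conformal factor `exp (-kρ)`. -/
def cf (k : ℝ) (F : E → V) (y : E) : ℝ := Real.exp (-k * rho F y)

omit [InnerProductSpace ℝ V] in
theorem cf_pos (k : ℝ) (F : E → V) (y : E) : 0 < cf k F y := Real.exp_pos _

theorem cd_cf (k : ℝ) (hF : ContDiffAt ℝ 3 F x) : ContDiffAt ℝ 3 (cf k F) x :=
  (contDiffAt_const.mul (cd_rho hF)).exp

theorem fderiv_cf (k : ℝ) (hF : ContDiffAt ℝ 3 F x) (a : E) :
    fderiv ℝ (cf k F) x a = -k * fderiv ℝ (rho F) x a * cf k F x := by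
  have h2 := (diff1 (cd_rho hF)).hasFDerivAt
  have h3 : HasFDerivAt (cf k F) (Real.exp (-k * rho F x) • (-k) • fderiv ℝ (rho F) x) x :=
    (h2.const_mul (-k)).exp
  rw [h3.fderiv]
  simp [cf]
  ring

theorem D2_cf (k : ℝ) (hF : ContDiffAt ℝ 3 F x) (a b : E) :
    D2 (cf k F) x a b = (k ^ 2 * fderiv ℝ (rho F) x a * fderiv ℝ (rho F) x b -
      k * D2 (rho F) x a b) * cf k F x := by
  rw [D2_eq (cd_cf k hF)]
  have h1 : (fun z => fderiv ℝ (cf k F) z b) =ᶠ[𝓝 x]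
      fun z => -k * fderiv ℝ (rho F) z b * cf k F z := by
    filter_upwards [eventually_cd hF] with z hz
    exact fderiv_cf k hz b
  have h2 := hasFDerivAt_D1 (cd_rho hF) b
  have h3 := (diff1 (cd_cf k hF)).hasFDerivAt
  rw [h1.fderiv_eq, ((h2.const_mul (-k)).fun_mul h3).fderiv]
  simp only [_root_.add_apply, _root_.smul_apply, smul_eq_mul, fderiv_cf k hF]
  simp [D2]
  ring

/-- The conformal light cone map. -/
def PP (k : ℝ) (F : E → V) (y : E) : V × ℝ × ℝ := cf k F y • QQ F y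

theorem cd_PP (k : ℝ) (hF : ContDiffAt ℝ 3 F x) : ContDiffAt ℝ 3 (PP k F) x :=
  (cd_cf k hF).smul (cd_QQ hF)

theorem fderiv_PP (k : ℝ) (hF : ContDiffAt ℝ 3 F x) (a : E) :
    fderiv ℝ (PP k F) x a = cf k F x • (fderiv ℝ (QQ F) x a -
      (k * fderiv ℝ (rho F) x a) • QQ F x) := by
  have h : fderiv ℝ (PP k F) x a = _ :=
    fderiv_smul_ev (diff1 (cd_cf k hF)) (diff1 (cd_QQ hF)) a
  rw [h, fderiv_cf k hF]
  module

theorem D2_PP (k : ℝ) (hF : ContDiffAt ℝ 3 F x) (a b : E) :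
    D2 (PP k F) x a b = cf k F x • (D2 (QQ F) x a b -
      (k * fderiv ℝ (rho F) x a) • fderiv ℝ (QQ F) x b -
      (k * fderiv ℝ (rho F) x b) • fderiv ℝ (QQ F) x a +
      (k ^ 2 * fderiv ℝ (rho F) x a * fderiv ℝ (rho F) x b -
        k * D2 (rho F) x a b) • QQ F x) := by
  have h : D2 (PP k F) x a b = _ := D2_smul (cd_cf k hF) (cd_QQ hF) a b
  rw [h, fderiv_cf k hF, fderiv_cf k hF, D2_cf k hF]
  module

theorem PP_metric (k : ℝ) (hF : ContDiffAt ℝ 3 F x) (a b : E) :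
    Bf V (fderiv ℝ (PP k F) x a) (fderiv ℝ (PP k F) x b) =
      cf k F x ^ 2 * ⟪fderiv ℝ F x a, fderiv ℝ F x b⟫_ℝ := by
  rw [fderiv_PP k hF, fderiv_PP k hF]
  simp only [map_smul, map_sub, _root_.smul_apply, _root_.sub_apply, smul_eq_mul,
    B_D1_D1 hF, B_Q_D1 hF, B_QQ, Bf_symm (fderiv ℝ (QQ F) x a) (QQ F x)]
  ring

end Cone

end CondR
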