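import Pool.Agent.CondR.Cone

/-!
# MP_f2e772_gt: the curvature of the conformal metric in a frame
-/

set_option linter.unusedSectionVars false

noncomputable section

open scoped ContDiff Manifold ENNReal InnerProductSpace Topology

namespace CondR

variable {E : Type*} [NormedAddCommGroup E] [NormedSpace ℝ E]

section Curv

variable {V : Type*} [NormedAddCommGroup V] [InnerProductSpace ℝ V] {F : E → V} {x : E}

/-- `e` is an orthonormal frame for `F^* g_V` at `x`. -/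
def FOrth (F : E → V) (x : E) (e : Fin 4 → E) : Prop :=
  ∀ a b, ⟪fderiv ℝ F x (e a), fderiv ℝ F x (e b)⟫_ℝ = if a = b then 1 else 0

/-- The normal component of the second derivative in the frame. -/
def AA (F : E → V) (x : E) (e : Fin 4 → E) (a b : E) : V :=
  D2 F x a b - ∑ γ, ⟪D2 F x a b, fderiv ℝ F x (e γ)⟫_ℝ • fderiv ℝ F x (e γ)

theorem inner_AA {e : Fin 4 → E} (he : FOrth F x e) (a b c d : E) :
    ⟪AA F x e a b, AA F x e c d⟫_ℝ = ⟪D2 F x a b, D2 F x c d⟫_ℝ -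
      ∑ γ, ⟪D2 F x a b, fderiv ℝ F x (e γ)⟫_ℝ * ⟪D2 F x c d, fderiv ℝ F x (e γ)⟫_ℝ := by
  simp only [AA, inner_sub_left, inner_sub_right, sum_inner, inner_sum, real_inner_smul_left,
    real_inner_smul_right, he _ _, mul_ite, mul_one, mul_zero,
    Finset.sum_ite_eq', Finset.mem_univ, if_true, real_inner_comm (D2 F x c d)]
  simp

theorem inner_F_AA (e : Fin 4 → E) (a b : E) :
    ⟪F x, AA F x e a b⟫_ℝ = ⟪F x, D2 F x a b⟫_ℝ -
      ∑ γ, ⟪D2 F x a b, fderiv ℝ F x (e γ)⟫_ℝ * ⟪F x, fderiv ℝ F x (e γ)⟫_ℝ := by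
  simp only [AA, inner_sub_right, inner_sum, real_inner_smul_right]

/-- The `k`-dependent tangential quantity `Q_a - kρ_a Q`. -/
theorem BZU (k : ℝ) (hF : ContDiffAt ℝ 3 F x) {e : Fin 4 → E} (he : FOrth F x e)
    (a b γ : Fin 4) :
    Bf V (D2 (PP k F) x (e a) (e b)) (fderiv ℝ (PP k F) x (e γ)) =
      cf k F x ^ 2 * (⟪D2 F x (e a) (e b), fderiv ℝ F x (e γ)⟫_ℝ +
        k * ⟪F x, fderiv ℝ F x (e γ)⟫_ℝ * (if a = b then 1 else 0) -
        k * ⟪F x, fderiv ℝ F x (e a)⟫_ℝ * (if b = γ then 1 else 0) -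
        k * ⟪F x, fderiv ℝ F x (e b)⟫_ℝ * (if a = γ then 1 else 0)) := by
  rw [fderiv_PP k hF, D2_PP k hF, ← he a b, ← he b γ, ← he a γ]
  simp only [map_smul, map_sub, map_add, _root_.smul_apply, _root_.sub_apply, _root_.add_apply,
    smul_eq_mul, B_D1_D1 hF, B_Q_D1 hF, B_QQ, B_Q_D2 hF, B_D1_D2 hF,
    Bf_symm (fderiv ℝ (QQ F) x (e a)) (QQ F x), Bf_symm (fderiv ℝ (QQ F) x (e b)) (QQ F x),
    Bf_symm (D2 (QQ F) x (e a) (e b)), fderiv_rho (diff1 hF),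
    real_inner_comm (D2 F x (e a) (e b))]
  ring

theorem BZZ (k : ℝ) (hF : ContDiffAt ℝ 3 F x) {e : Fin 4 → E} (he : FOrth F x e)
    (a b c d : Fin 4) :
    Bf V (D2 (PP k F) x (e a) (e b)) (D2 (PP k F) x (e c) (e d)) =
      cf k F x ^ 2 * (⟪D2 F x (e a) (e b), D2 F x (e c) (e d)⟫_ℝ -
        k * ⟪F x, fderiv ℝ F x (e c)⟫_ℝ * ⟪D2 F x (e a) (e b), fderiv ℝ F x (e d)⟫_ℝ -
        k * ⟪F x, fderiv ℝ F x (e d)⟫_ℝ * ⟪D2 F x (e a) (e b), fderiv ℝ F x (e c)⟫_ℝ -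
        (k ^ 2 * ⟪F x, fderiv ℝ F x (e c)⟫_ℝ * ⟪F x, fderiv ℝ F x (e d)⟫_ℝ -
          k * ((if c = d then 1 else 0) + ⟪F x, D2 F x (e c) (e d)⟫_ℝ)) *
          (if a = b then 1 else 0) -
        k * ⟪F x, fderiv ℝ F x (e a)⟫_ℝ * ⟪D2 F x (e c) (e d), fderiv ℝ F x (e b)⟫_ℝ -
        k * ⟪F x, fderiv ℝ F x (e b)⟫_ℝ * ⟪D2 F x (e c) (e d), fderiv ℝ F x (e a)⟫_ℝ +
        k ^ 2 * (⟪F x, fderiv ℝ F x (e a)⟫_ℝ * ⟪F x, fderiv ℝ F x (e c)⟫_ℝ *
            (if b = d then 1 else 0) +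
          ⟪F x, fderiv ℝ F x (e a)⟫_ℝ * ⟪F x, fderiv ℝ F x (e d)⟫_ℝ *
            (if b = c then 1 else 0) +
          ⟪F x, fderiv ℝ F x (e b)⟫_ℝ * ⟪F x, fderiv ℝ F x (e c)⟫_ℝ *
            (if a = d then 1 else 0) +
          ⟪F x, fderiv ℝ F x (e b)⟫_ℝ * ⟪F x, fderiv ℝ F x (e d)⟫_ℝ *
            (if a = c then 1 else 0)) -
        (k ^ 2 * ⟪F x, fderiv ℝ F x (e a)⟫_ℝ * ⟪F x, fderiv ℝ F x (e b)⟫_ℝ -
          k * ((if a = b then 1 else 0) + ⟪F x, D2 F x (e a) (e b)⟫_ℝ)) *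
          (if c = d then 1 else 0)) := by
  rw [D2_PP k hF, D2_PP k hF, ← he a b, ← he c d, ← he b d, ← he b c, ← he a d, ← he a c]
  simp only [map_smul, map_sub, map_add, _root_.smul_apply, _root_.sub_apply, _root_.add_apply,
    smul_eq_mul, B_D1_D1 hF, B_Q_D1 hF, B_QQ, B_Q_D2 hF, B_D1_D2 hF, B_D2_D2 hF,
    Bf_symm (fderiv ℝ (QQ F) x (e a)) (QQ F x), Bf_symm (fderiv ℝ (QQ F) x (e b)) (QQ F x),
    Bf_symm (D2 (QQ F) x (e a) (e b)) (QQ F x),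
    Bf_symm (D2 (QQ F) x (e a) (e b)) (fderiv ℝ (QQ F) x (e c)),
    Bf_symm (D2 (QQ F) x (e a) (e b)) (fderiv ℝ (QQ F) x (e d)),
    fderiv_rho (diff1 hF), D2_rho hF,
    real_inner_comm (D2 F x (e a) (e b)) (fderiv ℝ F x (e c)),
    real_inner_comm (D2 F x (e a) (e b)) (fderiv ℝ F x (e d)),
    real_inner_comm (D2 F x (e c) (e d)) (fderiv ℝ F x (e a)),
    real_inner_comm (D2 F x (e c) (e d)) (fderiv ℝ F x (e b))]
  ring

/-- The rescaled frame. -/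
def scl (k : ℝ) (F : E → V) (x : E) (e : Fin 4 → E) (a : Fin 4) : E := (cf k F x)⁻¹ • e a

theorem scl_orth (k : ℝ) (hF : ContDiffAt ℝ 3 F x) {e : Fin 4 → E} (he : FOrth F x e) :
    Orth (PP k F) (Bf V) x (scl k F x e) := by
  intro a b
  have hc := (cf_pos k F x).ne'
  rw [PP_metric k hF, ← he a b]
  simp only [scl, map_smul, real_inner_smul_left, real_inner_smul_right]
  field_simp

theorem D2_scl (k : ℝ) (e : Fin 4 → E) (a b : Fin 4) :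
    D2 (PP k F) x (scl k F x e a) (scl k F x e b) =
      (cf k F x)⁻¹ • (cf k F x)⁻¹ • D2 (PP k F) x (e a) (e b) := by
  simp only [D2, scl, map_smul, _root_.smul_apply]

theorem TT_scl (k : ℝ) (e : Fin 4 → E) (a b c d : Fin 4) :
    cf k F x ^ 4 * TT (PP k F) (Bf V) x (scl k F x e) (scl k F x e a) (scl k F x e b)
      (scl k F x e c) (scl k F x e d) =
      Bf V (D2 (PP k F) x (e a) (e b)) (D2 (PP k F) x (e c) (e d)) -
        (cf k F x)⁻¹ ^ 2 * ∑ γ, Bf V (D2 (PP k F) x (e a) (e b)) (fderiv ℝ (PP k F) x (e γ)) *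
          Bf V (D2 (PP k F) x (e c) (e d)) (fderiv ℝ (PP k F) x (e γ)) := by
  have hc := (cf_pos k F x).ne'
  unfold TT
  rw [D2_scl, D2_scl, mul_sub, Finset.mul_sum, Finset.mul_sum]
  congr 1
  · simp only [map_smul, _root_.smul_apply, smul_eq_mul]
    field_simp
  · refine Finset.sum_congr rfl fun γ _ => ?_
    simp only [scl, map_smul, _root_.smul_apply, smul_eq_mul]
    field_simp

theorem TT_val (k : ℝ) {e : Fin 4 → E}
    (a b c d : Fin 4) {z : ℝ} {u v : Fin 4 → ℝ}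
    (hz : Bf V (D2 (PP k F) x (e a) (e b)) (D2 (PP k F) x (e c) (e d)) = cf k F x ^ 2 * z)
    (hu : ∀ γ, Bf V (D2 (PP k F) x (e a) (e b)) (fderiv ℝ (PP k F) x (e γ)) =
      cf k F x ^ 2 * u γ)
    (hv : ∀ γ, Bf V (D2 (PP k F) x (e c) (e d)) (fderiv ℝ (PP k F) x (e γ)) =
      cf k F x ^ 2 * v γ) :
    cf k F x ^ 2 * TT (PP k F) (Bf V) x (scl k F x e) (scl k F x e a) (scl k F x e b)
      (scl k F x e c) (scl k F x e d) = z - ∑ γ, u γ * v γ := by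
  have hc := (cf_pos k F x).ne'
  have h := TT_scl (V := V) (F := F) (x := x) k e a b c d
  simp only [hu, hv] at h
  rw [hz] at h
  have h2 : ∑ γ, cf k F x ^ 2 * u γ * (cf k F x ^ 2 * v γ) =
      cf k F x ^ 4 * ∑ γ, u γ * v γ := by
    rw [Finset.mul_sum]
    exact Finset.sum_congr rfl fun γ _ => by ring
  rw [h2] at h
  have h3 : cf k F x ^ 2 * (cf k F x ^ 2 * TT (PP k F) (Bf V) x (scl k F x e) (scl k F x e a)
      (scl k F x e b) (scl k F x e c) (scl k F x e d)) =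
      cf k F x ^ 2 * (z - ∑ γ, u γ * v γ) := by
    have h4 : (cf k F x)⁻¹ ^ 2 * (cf k F x ^ 4 * ∑ γ, u γ * v γ) =
      cf k F x ^ 2 * ∑ γ, u γ * v γ := by field_simp
    rw [h4] at h
    linear_combination h
  exact mul_left_cancel₀ (pow_ne_zero 2 hc) h3

/-- The bracket. -/
def brk (k : ℝ) (F : E → V) (x : E) (e : Fin 4 → E) (a b : Fin 4) : ℝ :=
  ⟪AA F x e (e a) (e a), AA F x e (e b) (e b)⟫_ℝ - ⟪AA F x e (e a) (e b), AA F x e (e a) (e b)⟫_ℝ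
    + k * (1 + ⟪F x, AA F x e (e a) (e a)⟫_ℝ) + k * (1 + ⟪F x, AA F x e (e b) (e b)⟫_ℝ)
    + k ^ 2 * ⟪F x, fderiv ℝ F x (e a)⟫_ℝ ^ 2 + k ^ 2 * ⟪F x, fderiv ℝ F x (e b)⟫_ℝ ^ 2
    - k ^ 2 * ∑ γ, ⟪F x, fderiv ℝ F x (e γ)⟫_ℝ ^ 2

theorem KK_val (k : ℝ) (hF : ContDiffAt ℝ 3 F x) {e : Fin 4 → E} (he : FOrth F x e)
    (a b : Fin 4) (hab : a ≠ b) :
    cf k F x ^ 2 * KK (PP k F) (Bf V) x (scl k F x e) a b = brk k F x e a b := by
  unfold KK
  rw [mul_sub, TT_val k a a b b (BZZ k hF he a a b b) (BZU k hF he a a)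
    (BZU k hF he b b), TT_val k a b a b (BZZ k hF he a b a b) (BZU k hF he a b)
    (BZU k hF he a b)]
  unfold brk
  rw [inner_AA he, inner_AA he, inner_F_AA, inner_F_AA]
  fin_cases a <;> fin_cases b <;>
    first
    | exact absurd rfl hab
    | (simp [Fin.sum_univ_four]; ring)

end Curv

end CondR
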