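import Mathlib

/-!
# MP_f2e772_gt: definitions used in the statement

`X` is a closed smooth manifold modelled on a four-dimensional real vector space `E` with a
basis `b`, and `f : X → V` is a smooth immersion into a finite-dimensional Euclidean space `V`.
Riemannian quantities are given by their classical formulas in the coordinates with respect to
`b`; near a point `p` everything is computed in the preferred chart at `p`, in which `f` is
represented by the map `loc f p : E → V`.
-/

noncomputable section

open scoped ContDiff Manifold ENNReal InnerProductSpace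

namespace CondR

variable {E : Type*} [NormedAddCommGroup E] [NormedSpace ℝ E] (b : Fin 4 → E)

/-- The partial derivative `∂_i f`, in the direction of the basis vector `b i`. -/
def pd (i : Fin 4) (f : E → ℝ) (x : E) : ℝ := fderiv ℝ f x (b i)

/-- Christoffel symbols `Γ^k_{ij}` of the metric with coefficient matrix `g`. -/
def chr (g : E → Matrix (Fin 4) (Fin 4) ℝ) (k i j : Fin 4) (x : E) : ℝ :=
  (1 / 2) * ∑ l, (g x)⁻¹ k l *
    (pd b i (fun y => g y j l) x + pd b j (fun y => g y i l) x - pd b l (fun y => g y i j) x)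

/-- The Ricci tensor
`Ric_{jk} = ∂_i Γ^i_{jk} - ∂_j Γ^i_{ik} + Γ^i_{ip} Γ^p_{jk} - Γ^i_{jp} Γ^p_{ik}`. -/
def ric (g : E → Matrix (Fin 4) (Fin 4) ℝ) (j k : Fin 4) (x : E) : ℝ :=
  ∑ i, (pd b i (chr b g i j k) x - pd b j (chr b g i i k) x
    + ∑ p, (chr b g i i p x * chr b g p j k x - chr b g i j p x * chr b g p i k x))

/-- The scalar curvature `g^{jk} Ric_{jk}`. -/
def scal (g : E → Matrix (Fin 4) (Fin 4) ℝ) (x : E) : ℝ :=
  ∑ j, ∑ k, (g x)⁻¹ j k * ric b g j k x

/-- Condition (R) at the point `x`: `2 Ric(u,u) < scal` for every unit tangent vector `u`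
(given by its components with respect to `b`). -/
def SatR (g : E → Matrix (Fin 4) (Fin 4) ℝ) (x : E) : Prop :=
  ∀ u : Fin 4 → ℝ, ∑ i, ∑ j, g x i j * u i * u j = 1 →
    2 * ∑ j, ∑ k, ric b g j k x * u j * u k < scal b g x

variable {V : Type*} [NormedAddCommGroup V] [InnerProductSpace ℝ V]

/-- The coefficient matrix of the metric `e^{2ψ} F^* g_V`. -/
def confMetric (F : E → V) (ψ : E → ℝ) (x : E) : Matrix (Fin 4) (Fin 4) ℝ :=
  Matrix.of fun i j => Real.exp (2 * ψ x) * ⟪fderiv ℝ F x (b i), fderiv ℝ F x (b j)⟫_ℝ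

/-- The second fundamental form `A(u,u)` of `F` at `x`: the component of the second derivative
`∂_u ∂_u F (x)` orthogonal to the image of the differential of `F` at `x`. -/
def sff [FiniteDimensional ℝ V] (F : E → V) (x u : E) : V :=
  (LinearMap.range (fderiv ℝ F x : E →ₗ[ℝ] V))ᗮ.starProjection
    (fderiv ℝ (fun y => fderiv ℝ F y u) x u)

/-- The map `f` in the preferred chart at `p`. -/
def loc {X : Type*} [TopologicalSpace X] [ChartedSpace E X] {W : Type*} (f : X → W) (p : X) :
    E → W := f ∘ (extChartAt 𝓘(ℝ, E) p).symm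

/-- The coordinates of `p` in the preferred chart at `p`. -/
def pt (E : Type*) [NormedAddCommGroup E] [NormedSpace ℝ E] {X : Type*} [TopologicalSpace X]
    [ChartedSpace E X] (p : X) : E := extChartAt 𝓘(ℝ, E) p p

/-- The maximal normal curvature of `f`: the supremum of `|A(u,u)|` over all unit vectors. -/
def normalCurv (E : Type*) [NormedAddCommGroup E] [NormedSpace ℝ E] {X : Type*}
    [TopologicalSpace X] [ChartedSpace E X] [FiniteDimensional ℝ V] (f : X → V) : ℝ≥0∞ :=
  ⨆ (p : X) (u : E) (_ : ‖fderiv ℝ (loc f p) (pt E p) u‖ = 1), ‖sff (loc f p) (pt E p) u‖ₑ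

end CondR
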