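import Pool.Agent.CondR.Defs

/-!
# MP_f2e772_gt: the Gauss equation for a map into a space with a symmetric bilinear form

If `g_{ij} = B(∂_i P, ∂_j P)` near `x` for a smooth map `P` into a normed space with a symmetric
continuous bilinear form `B`, then the curvature of `g` at `x` is given by the Gauss equation.
-/

noncomputable section

open scoped ContDiff Manifold ENNReal InnerProductSpace Topology

namespace CondR

variable {E : Type*} [NormedAddCommGroup E] [NormedSpace ℝ E]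

/-- The determinant of a differentiable matrix function is differentiable. -/
theorem differentiableAt_det {A : E → Matrix (Fin 4) (Fin 4) ℝ} {x : E}
    (h : ∀ i j, DifferentiableAt ℝ (fun y => A y i j) x) :
    DifferentiableAt ℝ (fun y => (A y).det) x := by
  simp only [Matrix.det_apply']
  fun_prop

/-- The entries of the inverse of a differentiable matrix function are differentiable. -/
theorem differentiableAt_inv {A : E → Matrix (Fin 4) (Fin 4) ℝ} {x : E}
    (h : ∀ i j, DifferentiableAt ℝ (fun y => A y i j) x) (hd : (A x).det ≠ 0) (i j : Fin 4) :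
    DifferentiableAt ℝ (fun y => (A y)⁻¹ i j) x := by
  have h1 : (fun y => (A y)⁻¹ i j) =
      fun y => (A y).det⁻¹ * ((A y).updateRow j (Pi.single i 1)).det := by
    funext y
    rw [Matrix.inv_def, Matrix.smul_apply, Matrix.adjugate_apply, Ring.inverse_eq_inv',
      smul_eq_mul]
  rw [h1]
  refine ((differentiableAt_det h).inv hd).mul (differentiableAt_det fun k l => ?_)
  by_cases hk : k = j
  · subst hk; simp
  · simpa [Matrix.updateRow_apply, hk] using h k l

section Gauss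

variable {W : Type*} [NormedAddCommGroup W] [NormedSpace ℝ W]
  {P : E → W} {B : W →L[ℝ] W →L[ℝ] ℝ} {g : E → Matrix (Fin 4) (Fin 4) ℝ} {x : E}
  {bs : Module.Basis (Fin 4) ℝ E}

/-- The second derivative. -/
def D2 (P : E → W) (y a b : E) : W := fderiv ℝ (fderiv ℝ P) y a b

/-- The third derivative. -/
def D3 (P : E → W) (y a b c : E) : W := fderiv ℝ (fderiv ℝ (fderiv ℝ P)) y a b c

theorem D2_symm {y : E} (hP : ContDiffAt ℝ 3 P y) (a b : E) : D2 P y a b = D2 P y b a :=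
  (hP.isSymmSndFDerivAt (by simp; norm_num)) a b

theorem diff1 {y : E} (hP : ContDiffAt ℝ 3 P y) : DifferentiableAt ℝ P y :=
  hP.differentiableAt (by norm_num)

theorem cd1 {y : E} (hP : ContDiffAt ℝ 3 P y) : ContDiffAt ℝ 2 (fderiv ℝ P) y :=
  hP.fderiv_right (by norm_num)

theorem cd2 {y : E} (hP : ContDiffAt ℝ 3 P y) : ContDiffAt ℝ 1 (fderiv ℝ (fderiv ℝ P)) y :=
  (cd1 hP).fderiv_right (by norm_num)

theorem diff2 {y : E} (hP : ContDiffAt ℝ 3 P y) : DifferentiableAt ℝ (fderiv ℝ P) y :=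
  (cd1 hP).differentiableAt (by norm_num)

theorem diff3 {y : E} (hP : ContDiffAt ℝ 3 P y) :
    DifferentiableAt ℝ (fderiv ℝ (fderiv ℝ P)) y :=
  (cd2 hP).differentiableAt (by norm_num)

theorem hasFDerivAt_ev {F : Type*} [NormedAddCommGroup F] [NormedSpace ℝ F]
    {c : E → (E →L[ℝ] F)} {c' : E →L[ℝ] E →L[ℝ] F} {y : E} (h : HasFDerivAt c c' y)
    (b : E) : HasFDerivAt (fun z => c z b) (c'.flip b) y := by
  have := h.clm_apply (hasFDerivAt_const b y)
  simpa using this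

theorem hasFDerivAt_D1 {y : E} (hP : ContDiffAt ℝ 3 P y) (b : E) :
    HasFDerivAt (fun z => fderiv ℝ P z b) ((fderiv ℝ (fderiv ℝ P) y).flip b) y :=
  hasFDerivAt_ev (diff2 hP).hasFDerivAt b

theorem hasFDerivAt_D2 {y : E} (hP : ContDiffAt ℝ 3 P y) (b c : E) :
    HasFDerivAt (fun z => D2 P z b c)
      (((fderiv ℝ (fderiv ℝ (fderiv ℝ P)) y).flip b).flip c) y :=
  hasFDerivAt_ev (hasFDerivAt_ev (diff3 hP).hasFDerivAt b) c

theorem D3_symm12 (hP : ContDiffAt ℝ 3 P x) (a b c : E) : D3 P x a b c = D3 P x b a c := by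
  have h := ((cd1 hP).isSymmSndFDerivAt (by simp)) a b
  unfold D3
  rw [h]

theorem eventually_cd (hP : ContDiffAt ℝ 3 P x) : ∀ᶠ y in 𝓝 x, ContDiffAt ℝ 3 P y :=
  hP.eventually (by simp)

theorem D3_symm23 (hP : ContDiffAt ℝ 3 P x) (a b c : E) : D3 P x a b c = D3 P x a c b := by
  have h1 := hasFDerivAt_D2 hP b c
  have h2 := hasFDerivAt_D2 hP c b
  have h3 : (fun z => D2 P z b c) =ᶠ[𝓝 x] fun z => D2 P z c b :=
    (eventually_cd hP).mono fun y hy => D2_symm hy b c
  have h4 := (h2.congr_of_eventuallyEq h3).unique h1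
  have h5 := congrArg (fun L : E →L[ℝ] W => L a) h4
  simpa [D3] using h5.symm

theorem hasFDerivAt_B {u v : E → W} {u' v' : E →L[ℝ] W} {y : E} (hu : HasFDerivAt u u' y)
    (hv : HasFDerivAt v v' y) (a : E) :
    fderiv ℝ (fun z => B (u z) (v z)) y a = B (u' a) (v y) + B (u y) (v' a) := by
  have h := (B.hasFDerivAt_of_bilinear hu hv).fderiv
  rw [h]
  simp [add_comm]

theorem differentiableAt_B {u v : E → W} {y : E} (hu : DifferentiableAt ℝ u y)
    (hv : DifferentiableAt ℝ v y) : DifferentiableAt ℝ (fun z => B (u z) (v z)) y :=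
  (B.hasFDerivAt_of_bilinear hu.hasFDerivAt hv.hasFDerivAt).differentiableAt

/-- The metric `g` is induced from `B` by `P` near `x`. -/
def Ind (bs : Module.Basis (Fin 4) ℝ E) (P : E → W) (B : W →L[ℝ] W →L[ℝ] ℝ) (g : E → Matrix (Fin 4) (Fin 4) ℝ)
    (x : E) : Prop :=
  g =ᶠ[𝓝 x] fun y => Matrix.of fun i j => B (fderiv ℝ P y (bs i)) (fderiv ℝ P y (bs j))

theorem Ind.eventually (h : Ind bs P B g x) : ∀ᶠ y in 𝓝 x, Ind bs P B g y := by
  have h1 : ∀ᶠ y in 𝓝 x, ∀ᶠ z in 𝓝 y, g z =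
      Matrix.of fun i j => B (fderiv ℝ P z (bs i)) (fderiv ℝ P z (bs j)) :=
    eventually_eventually_nhds.2 h
  exact h1

theorem Ind.entry {y : E} (h : Ind bs P B g y) (i j : Fin 4) :
    (fun z => g z i j) =ᶠ[𝓝 y] fun z => B (fderiv ℝ P z (bs i)) (fderiv ℝ P z (bs j)) := by
  filter_upwards [h] with z hz
  rw [hz]; rfl

theorem Ind.apply {y : E} (h : Ind bs P B g y) (i j : Fin 4) :
    g y i j = B (fderiv ℝ P y (bs i)) (fderiv ℝ P y (bs j)) := (h.entry i j).eq_of_nhds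

theorem Ind.diff {y : E} (h : Ind bs P B g y) (hP : ContDiffAt ℝ 3 P y) (i j : Fin 4) :
    DifferentiableAt ℝ (fun z => g z i j) y :=
  (differentiableAt_B (hasFDerivAt_D1 hP _).differentiableAt
    (hasFDerivAt_D1 hP _).differentiableAt).congr_of_eventuallyEq (h.entry i j)

theorem Ind.pd {y : E} (h : Ind bs P B g y) (hP : ContDiffAt ℝ 3 P y) (k i j : Fin 4) :
    pd bs k (fun z => g z i j) y = B (D2 P y (bs k) (bs i)) (fderiv ℝ P y (bs j)) +
      B (fderiv ℝ P y (bs i)) (D2 P y (bs k) (bs j)) := by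
  rw [CondR.pd, (h.entry i j).fderiv_eq,
    hasFDerivAt_B (hasFDerivAt_D1 hP _) (hasFDerivAt_D1 hP _)]
  simp [D2]

theorem Ind.chr {y : E} (h : Ind bs P B g y) (hP : ContDiffAt ℝ 3 P y)
    (hB : ∀ v w, B v w = B w v) (k i j : Fin 4) :
    chr bs g k i j y = ∑ l, (g y)⁻¹ k l * B (D2 P y (bs i) (bs j)) (fderiv ℝ P y (bs l)) := by
  rw [CondR.chr, Finset.mul_sum]
  refine Finset.sum_congr rfl fun l _ => ?_
  rw [h.pd hP, h.pd hP, h.pd hP, D2_symm hP (bs j) (bs i), D2_symm hP (bs l) (bs i),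
    D2_symm hP (bs l) (bs j), hB (fderiv ℝ P y (bs j)), hB (fderiv ℝ P y (bs i))
    (D2 P y (bs j) (bs l))]
  ring

theorem Ind.chr_low {y : E} (h : Ind bs P B g y) (hP : ContDiffAt ℝ 3 P y)
    (hB : ∀ v w, B v w = B w v) (hd : (g y).det ≠ 0) (m i j : Fin 4) :
    ∑ k, g y m k * CondR.chr bs g k i j y =
      B (D2 P y (bs i) (bs j)) (fderiv ℝ P y (bs m)) := by
  have h1 : g y * (g y)⁻¹ = 1 := Matrix.mul_nonsing_inv _ (isUnit_iff_ne_zero.2 hd)
  have h2 : ∀ l, ∑ k, g y m k * (g y)⁻¹ k l = if m = l then 1 else 0 := by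
    intro l
    have := congrFun (congrFun h1 m) l
    rw [Matrix.mul_apply, Matrix.one_apply] at this
    exact this
  simp only [h.chr hP hB, Finset.mul_sum]
  rw [Finset.sum_comm]
  have h3 : ∀ l, ∑ k, g y m k * ((g y)⁻¹ k l * B (D2 P y (bs i) (bs j)) (fderiv ℝ P y (bs l)))
      = (if m = l then 1 else 0) * B (D2 P y (bs i) (bs j)) (fderiv ℝ P y (bs l)) := by
    intro l
    rw [← h2 l, Finset.sum_mul]
    exact Finset.sum_congr rfl fun k _ => by ring
  simp [h3]

theorem Ind.eventually_det (h : Ind bs P B g x) (hP : ContDiffAt ℝ 3 P x)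
    (hd : (g x).det ≠ 0) : ∀ᶠ y in 𝓝 x, (g y).det ≠ 0 :=
  (differentiableAt_det fun i j => h.diff hP i j).continuousAt.eventually_ne hd

theorem Ind.chr_diff (h : Ind bs P B g x) (hP : ContDiffAt ℝ 3 P x)
    (hB : ∀ v w, B v w = B w v) (hd : (g x).det ≠ 0) (k i j : Fin 4) :
    DifferentiableAt ℝ (CondR.chr bs g k i j) x := by
  have h1 : CondR.chr bs g k i j =ᶠ[𝓝 x]
      fun y => ∑ l, (g y)⁻¹ k l * B (D2 P y (bs i) (bs j)) (fderiv ℝ P y (bs l)) := by
    filter_upwards [h.eventually, eventually_cd hP] with y hy hPy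
    exact hy.chr hPy hB k i j
  refine DifferentiableAt.congr_of_eventuallyEq ?_ h1
  refine DifferentiableAt.fun_sum fun l _ => ?_
  exact (differentiableAt_inv (fun i j => h.diff hP i j) hd k l).mul
    (differentiableAt_B (hasFDerivAt_D2 hP _ _).differentiableAt
      (hasFDerivAt_D1 hP _).differentiableAt)

theorem Ind.chr_low_deriv (h : Ind bs P B g x) (hP : ContDiffAt ℝ 3 P x)
    (hB : ∀ v w, B v w = B w v) (hd : (g x).det ≠ 0) (l m i j : Fin 4) :
    ∑ k, (CondR.pd bs l (fun y => g y m k) x * CondR.chr bs g k i j x +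
      g x m k * CondR.pd bs l (CondR.chr bs g k i j) x) =
      B (D3 P x (bs l) (bs i) (bs j)) (fderiv ℝ P x (bs m)) +
      B (D2 P x (bs i) (bs j)) (D2 P x (bs l) (bs m)) := by
  have h1 : (fun y => ∑ k, g y m k * CondR.chr bs g k i j y) =ᶠ[𝓝 x]
      fun y => B (D2 P y (bs i) (bs j)) (fderiv ℝ P y (bs m)) := by
    filter_upwards [h.eventually, eventually_cd hP, h.eventually_det hP hd] with y hy hPy hdy
    exact hy.chr_low hPy hB hdy m i j
  have h2 := congrArg (fun L : E →L[ℝ] ℝ => L (bs l)) h1.fderiv_eq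
  beta_reduce at h2
  rw [hasFDerivAt_B (hasFDerivAt_D2 hP _ _) (hasFDerivAt_D1 hP _)] at h2
  have h3 : fderiv ℝ (fun y => ∑ k, g y m k * CondR.chr bs g k i j y) x (bs l) =
      ∑ k, (CondR.pd bs l (fun y => g y m k) x * CondR.chr bs g k i j x +
      g x m k * CondR.pd bs l (CondR.chr bs g k i j) x) := by
    rw [fderiv_fun_sum fun k _ => (h.diff hP m k).fun_mul (h.chr_diff hP hB hd k i j),
      _root_.sum_apply]
    refine Finset.sum_congr rfl fun k _ => ?_
    rw [fderiv_fun_mul (h.diff hP m k) (h.chr_diff hP hB hd k i j)]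
    simp [CondR.pd]
    ring
  rw [← h3, h2]
  simp [D2, D3]

/-- The curvature coefficients `R^a_{ijk}`. -/
def Rm (bs : Module.Basis (Fin 4) ℝ E) (g : E → Matrix (Fin 4) (Fin 4) ℝ) (a i j k : Fin 4) (x : E) : ℝ :=
  CondR.pd bs i (CondR.chr bs g a j k) x - CondR.pd bs j (CondR.chr bs g a i k) x
    + ∑ p, (CondR.chr bs g a i p x * CondR.chr bs g p j k x - CondR.chr bs g a j p x * CondR.chr bs g p i k x)

theorem ric_eq (j k : Fin 4) : ric bs g j k x = ∑ i, Rm bs g i i j k x := rfl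

theorem Ind.Rm_low (h : Ind bs P B g x) (hP : ContDiffAt ℝ 3 P x)
    (hB : ∀ v w, B v w = B w v) (hd : (g x).det ≠ 0) (m i j k : Fin 4) :
    ∑ a, g x m a * Rm bs g a i j k x =
      (B (D2 P x (bs j) (bs k)) (D2 P x (bs m) (bs i)) -
        ∑ a, B (D2 P x (bs m) (bs i)) (fderiv ℝ P x (bs a)) * CondR.chr bs g a j k x) -
      (B (D2 P x (bs i) (bs k)) (D2 P x (bs m) (bs j)) -
        ∑ a, B (D2 P x (bs m) (bs j)) (fderiv ℝ P x (bs a)) * CondR.chr bs g a i k x) := by
  have A1 := h.chr_low_deriv hP hB hd i m j k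
  have A2 := h.chr_low_deriv hP hB hd j m i k
  have C1 : ∀ i j, ∑ a, g x m a * ∑ p, CondR.chr bs g a i p x * CondR.chr bs g p j k x =
      ∑ p, B (D2 P x (bs i) (bs p)) (fderiv ℝ P x (bs m)) * CondR.chr bs g p j k x := by
    intro i j
    simp only [Finset.mul_sum]
    rw [Finset.sum_comm]
    refine Finset.sum_congr rfl fun p _ => ?_
    rw [← h.chr_low hP hB hd m i p, Finset.sum_mul]
    exact Finset.sum_congr rfl fun a _ => by ring
  have C1' := C1 i j
  have C2' := C1 j i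
  have D : D3 P x (bs i) (bs j) (bs k) = D3 P x (bs j) (bs i) (bs k) := D3_symm12 hP _ _ _
  have S1 : ∀ a : Fin 4, CondR.pd bs i (fun y => g y m a) x =
      B (D2 P x (bs m) (bs i)) (fderiv ℝ P x (bs a)) +
      B (D2 P x (bs i) (bs a)) (fderiv ℝ P x (bs m)) := by
    intro a
    rw [h.pd hP, D2_symm hP (bs i) (bs m), hB (fderiv ℝ P x (bs m))]
  have S2 : ∀ a : Fin 4, CondR.pd bs j (fun y => g y m a) x =
      B (D2 P x (bs m) (bs j)) (fderiv ℝ P x (bs a)) +
      B (D2 P x (bs j) (bs a)) (fderiv ℝ P x (bs m)) := by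
    intro a
    rw [h.pd hP, D2_symm hP (bs j) (bs m), hB (fderiv ℝ P x (bs m))]
  rw [D2_symm hP (bs i) (bs m)] at A1
  rw [D2_symm hP (bs j) (bs m), ← D] at A2
  simp only [S1] at A1
  simp only [S2] at A2
  have E : ∑ a, g x m a * Rm bs g a i j k x =
      (∑ a, g x m a * CondR.pd bs i (CondR.chr bs g a j k) x -
        ∑ a, g x m a * CondR.pd bs j (CondR.chr bs g a i k) x) +
      (∑ a, g x m a * ∑ p, CondR.chr bs g a i p x * CondR.chr bs g p j k x -
        ∑ a, g x m a * ∑ p, CondR.chr bs g a j p x * CondR.chr bs g p i k x) := by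
    rw [← Finset.sum_sub_distrib, ← Finset.sum_sub_distrib, ← Finset.sum_add_distrib]
    refine Finset.sum_congr rfl fun a _ => ?_
    rw [Rm, Finset.sum_sub_distrib]
    ring
  rw [E, C1', C2']
  simp only [Fin.sum_univ_four] at A1 A2 ⊢
  linear_combination A1 - A2

/-! ### Frames -/

theorem expand (bs : Module.Basis (Fin 4) ℝ E) (v : E) : v = ∑ i, bs.repr v i • bs i :=
  (bs.sum_repr v).symm

/-- Bilinearity of a function of two vectors. -/
structure Bilin (β : E → E → ℝ) : Prop where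
  left : ∀ b, IsLinearMap ℝ fun a => β a b
  right : ∀ a, IsLinearMap ℝ (β a)

theorem isLinearMap_expand (bs : Module.Basis (Fin 4) ℝ E) {φ : E → ℝ} (h : IsLinearMap ℝ φ) (v : E) :
    φ v = ∑ i, bs.repr v i * φ (bs i) := by
  have h1 : φ v = h.mk' φ v := rfl
  rw [h1]
  conv_lhs => rw [expand bs v, map_sum]
  exact Finset.sum_congr rfl fun i _ => by rw [map_smul]; rfl

theorem Bilin.expand {β : E → E → ℝ} (h : Bilin β) (bs : Module.Basis (Fin 4) ℝ E) (v w : E) :
    β v w = ∑ i, ∑ j, bs.repr v i * bs.repr w j * β (bs i) (bs j) := by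
  rw [isLinearMap_expand bs (h.left w) v]
  refine Finset.sum_congr rfl fun i _ => ?_
  rw [isLinearMap_expand bs (h.right (bs i)) w, Finset.mul_sum]
  exact Finset.sum_congr rfl fun j _ => by ring

theorem Bilin.trace {β : E → E → ℝ} (h : Bilin β) {G : Matrix (Fin 4) (Fin 4) ℝ}
    {ε : Fin 4 → E} (hG : ∀ i m, G i m = ∑ α, bs.repr (ε α) i * bs.repr (ε α) m) :
    ∑ i, ∑ m, G i m * β (bs i) (bs m) = ∑ α, β (ε α) (ε α) := by
  have h1 : ∀ α, β (ε α) (ε α) = ∑ i, ∑ j, bs.repr (ε α) i * bs.repr (ε α) j * β (bs i) (bs j) :=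
    fun α => h.expand bs _ _
  simp only [h1]
  conv_rhs => rw [Finset.sum_comm]
  refine Finset.sum_congr rfl fun i _ => ?_
  conv_rhs => rw [Finset.sum_comm]
  refine Finset.sum_congr rfl fun m _ => ?_
  rw [hG, Finset.sum_mul]

/-- `ε` is an orthonormal frame at `x` for the form induced by `P` from `B`. -/
def Orth (P : E → W) (B : W →L[ℝ] W →L[ℝ] ℝ) (x : E) (ε : Fin 4 → E) : Prop :=
  ∀ a b, B (fderiv ℝ P x (ε a)) (fderiv ℝ P x (ε b)) = if a = b then 1 else 0

theorem Orth.key (h : Ind bs P B g x) {ε : Fin 4 → E} (hε : Orth P B x ε) :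
    (Matrix.of (fun i α => bs.repr (ε α) i) *
      (Matrix.of fun i α => bs.repr (ε α) i).transpose) * g x = 1 := by
  set M : Matrix (Fin 4) (Fin 4) ℝ := Matrix.of fun i α => bs.repr (ε α) i with hM
  have h1 : (M.transpose * g x) * M = 1 := by
    ext a b
    rw [Matrix.mul_apply, Matrix.one_apply, ← hε a b]
    have hb : Bilin (fun v w => B (fderiv ℝ P x v) (fderiv ℝ P x w)) :=
      ⟨fun b => ⟨fun v w => by simp, fun c v => by simp⟩,
        fun a => ⟨fun v w => by simp, fun c v => by simp⟩⟩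
    rw [hb.expand bs (ε a) (ε b), Finset.sum_comm]
    refine Finset.sum_congr rfl fun j _ => ?_
    rw [Matrix.mul_apply, Finset.sum_mul]
    refine Finset.sum_congr rfl fun i _ => ?_
    rw [h.apply]
    simp [hM]
    ring
  rw [Matrix.mul_assoc]
  exact mul_eq_one_comm.1 h1

theorem Orth.inv (h : Ind bs P B g x) {ε : Fin 4 → E} (hε : Orth P B x ε) (i m : Fin 4) :
    (g x)⁻¹ i m = ∑ α, bs.repr (ε α) i * bs.repr (ε α) m := by
  rw [Matrix.inv_eq_left_inv (Orth.key h hε), Matrix.mul_apply]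
  rfl

theorem Orth.det_ne (h : Ind bs P B g x) {ε : Fin 4 → E} (hε : Orth P B x ε) :
    (g x).det ≠ 0 :=
  isUnit_iff_ne_zero.1 (Matrix.isUnit_det_of_left_inverse (Orth.key h hε))

/-- The curvature form of the Gauss equation. -/
def TT (P : E → W) (B : W →L[ℝ] W →L[ℝ] ℝ) (x : E) (ε : Fin 4 → E) (a b c d : E) : ℝ :=
  B (D2 P x a b) (D2 P x c d) -
    ∑ γ, B (D2 P x a b) (fderiv ℝ P x (ε γ)) * B (D2 P x c d) (fderiv ℝ P x (ε γ))

theorem Orth.h_eq (h : Ind bs P B g x) (hP : ContDiffAt ℝ 3 P x)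
    (hB : ∀ v w, B v w = B w v) {ε : Fin 4 → E} (hε : Orth P B x ε) (m i j k : Fin 4) :
    B (D2 P x (bs j) (bs k)) (D2 P x (bs m) (bs i)) -
        ∑ a, B (D2 P x (bs m) (bs i)) (fderiv ℝ P x (bs a)) * CondR.chr bs g a j k x =
      TT P B x ε (bs j) (bs k) (bs m) (bs i) := by
  unfold TT
  congr 1
  have hb : Bilin (fun v w => B (D2 P x (bs m) (bs i)) (fderiv ℝ P x v) *
      B (D2 P x (bs j) (bs k)) (fderiv ℝ P x w)) :=
    ⟨fun b => ⟨fun v w => by simp [add_mul], fun c v => by simp [mul_assoc]⟩,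
      fun a => ⟨fun v w => by simp [mul_add], fun c v => by simp; ring⟩⟩
  have h1 := hb.trace (Orth.inv h hε)
  rw [← Finset.sum_congr rfl fun γ _ => mul_comm (B (D2 P x (bs m) (bs i))
    (fderiv ℝ P x (ε γ))) _, ← h1]
  refine Finset.sum_congr rfl fun a _ => ?_
  rw [h.chr hP hB, Finset.mul_sum]
  exact Finset.sum_congr rfl fun l _ => by ring

theorem TT_bilin12 (ε : Fin 4 → E) (c d : E) :
    Bilin (fun a b => TT P B x ε a b c d) := by
  constructor
  · intro b
    refine ⟨fun v w => ?_, fun r v => ?_⟩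
    · simp only [TT, D2, map_add, _root_.add_apply, add_mul, Finset.sum_add_distrib]
      ring
    · simp only [TT, D2, map_smul, _root_.smul_apply, smul_eq_mul, mul_sub,
        Finset.mul_sum]
      congr 1
      exact Finset.sum_congr rfl fun γ _ => by ring
  · intro a
    refine ⟨fun v w => ?_, fun r v => ?_⟩
    · simp only [TT, D2, map_add, _root_.add_apply, add_mul, Finset.sum_add_distrib]
      ring
    · simp only [TT, D2, map_smul, _root_.smul_apply, smul_eq_mul, mul_sub,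
        Finset.mul_sum]
      congr 1
      exact Finset.sum_congr rfl fun γ _ => by ring

theorem TT_swap (hB : ∀ v w, B v w = B w v) (ε : Fin 4 → E) (a b c d : E) :
    TT P B x ε a b c d = TT P B x ε c d a b := by
  unfold TT
  rw [hB (D2 P x a b)]
  congr 1
  exact Finset.sum_congr rfl fun γ _ => mul_comm _ _

theorem TT_symm12 (hP : ContDiffAt ℝ 3 P x) (ε : Fin 4 → E) (a b c d : E) :
    TT P B x ε a b c d = TT P B x ε b a c d := by
  unfold TT
  rw [D2_symm hP a b]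

theorem TT_symm34 (hP : ContDiffAt ℝ 3 P x) (ε : Fin 4 → E) (a b c d : E) :
    TT P B x ε a b c d = TT P B x ε a b d c := by
  unfold TT
  rw [D2_symm hP c d]

/-- The Ricci form in the frame `ε`. -/
def RIC (P : E → W) (B : W →L[ℝ] W →L[ℝ] ℝ) (x : E) (ε : Fin 4 → E) (a b : E) : ℝ :=
  ∑ α, (TT P B x ε a b (ε α) (ε α) - TT P B x ε (ε α) b (ε α) a)

theorem TT_lin1 (ε : Fin 4 → E) (b c d : E) : IsLinearMap ℝ fun a => TT P B x ε a b c d :=
  (TT_bilin12 ε c d).left b

theorem TT_lin2 (ε : Fin 4 → E) (a c d : E) : IsLinearMap ℝ fun b => TT P B x ε a b c d :=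
  (TT_bilin12 ε c d).right a

theorem TT_lin3 (hB : ∀ v w, B v w = B w v) (ε : Fin 4 → E) (a b d : E) :
    IsLinearMap ℝ fun c => TT P B x ε a b c d := by
  simp only [TT_swap hB ε a b]
  exact TT_lin1 ε d a b

theorem TT_lin4 (hB : ∀ v w, B v w = B w v) (ε : Fin 4 → E) (a b c : E) :
    IsLinearMap ℝ fun d => TT P B x ε a b c d := by
  simp only [TT_swap hB ε a b]
  exact TT_lin2 ε c a b

theorem isLinearMap_sub {φ ψ : E → ℝ} (h1 : IsLinearMap ℝ φ) (h2 : IsLinearMap ℝ ψ) :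
    IsLinearMap ℝ fun a => φ a - ψ a :=
  ⟨fun v w => by rw [h1.map_add, h2.map_add]; ring,
    fun c v => by rw [h1.map_smul, h2.map_smul, smul_eq_mul, smul_eq_mul, smul_eq_mul]; ring⟩

theorem isLinearMap_sum {φ : Fin 4 → E → ℝ} (h1 : ∀ α, IsLinearMap ℝ (φ α)) :
    IsLinearMap ℝ fun a => ∑ α, φ α a :=
  ⟨fun v w => by rw [← Finset.sum_add_distrib]; exact Finset.sum_congr rfl fun α _ =>
      (h1 α).map_add v w,
    fun c v => by rw [Finset.smul_sum]; exact Finset.sum_congr rfl fun α _ =>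
      (h1 α).map_smul c v⟩

theorem RIC_bilin (hB : ∀ v w, B v w = B w v) (ε : Fin 4 → E) : Bilin (RIC P B x ε) := by
  constructor
  · intro b
    exact isLinearMap_sum fun α => isLinearMap_sub (TT_lin1 ε _ _ _) (TT_lin4 hB ε _ _ _)
  · intro a
    exact isLinearMap_sum fun α => isLinearMap_sub (TT_lin2 ε _ _ _) (TT_lin2 ε _ _ _)

theorem Orth.ric (h : Ind bs P B g x) (hP : ContDiffAt ℝ 3 P x)
    (hB : ∀ v w, B v w = B w v) {ε : Fin 4 → E} (hε : Orth P B x ε) (j k : Fin 4) :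
    CondR.ric bs g j k x = RIC P B x ε (bs j) (bs k) := by
  have hd := Orth.det_ne h hε
  have h1 : (g x)⁻¹ * g x = 1 := Matrix.nonsing_inv_mul _ (isUnit_iff_ne_zero.2 hd)
  have h2 : ∀ i a, ∑ m, (g x)⁻¹ i m * g x m a = if i = a then 1 else 0 := by
    intro i a
    have := congrFun (congrFun h1 i) a
    rw [Matrix.mul_apply, Matrix.one_apply] at this
    exact this
  have h3 : ∀ i, Rm bs g i i j k x = ∑ m, (g x)⁻¹ i m *
      (TT P B x ε (bs j) (bs k) (bs m) (bs i) - TT P B x ε (bs i) (bs k) (bs m) (bs j)) := by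
    intro i
    have e1 : ∀ m, TT P B x ε (bs j) (bs k) (bs m) (bs i) -
        TT P B x ε (bs i) (bs k) (bs m) (bs j) = ∑ a, g x m a * Rm bs g a i j k x := by
      intro m
      rw [h.Rm_low hP hB hd, Orth.h_eq h hP hB hε, Orth.h_eq h hP hB hε]
    simp only [e1, Finset.mul_sum]
    rw [Finset.sum_comm]
    have e2 : ∀ a, ∑ m, (g x)⁻¹ i m * (g x m a * Rm bs g a i j k x) =
        (if i = a then 1 else 0) * Rm bs g a i j k x := by
      intro a
      rw [← h2, Finset.sum_mul]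
      exact Finset.sum_congr rfl fun m _ => by ring
    simp [e2]
  rw [ric_eq]
  simp only [h3]
  have hb : Bilin (fun c d => TT P B x ε (bs j) (bs k) d c - TT P B x ε c (bs k) d (bs j)) :=
    ⟨fun d => isLinearMap_sub (TT_lin4 hB ε _ _ _) (TT_lin1 ε _ _ _),
      fun c => isLinearMap_sub (TT_lin3 hB ε _ _ _) (TT_lin3 hB ε _ _ _)⟩
  have := hb.trace (Orth.inv h hε)
  exact this

theorem Orth.scal (h : Ind bs P B g x) (hP : ContDiffAt ℝ 3 P x)
    (hB : ∀ v w, B v w = B w v) {ε : Fin 4 → E} (hε : Orth P B x ε) :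
    CondR.scal bs g x = ∑ β, RIC P B x ε (ε β) (ε β) := by
  unfold CondR.scal
  simp only [Orth.ric h hP hB hε]
  exact (RIC_bilin hB ε).trace (Orth.inv h hε)

/-- The sectional curvature form of the frame. -/
def KK (P : E → W) (B : W →L[ℝ] W →L[ℝ] ℝ) (x : E) (ε : Fin 4 → E) (a b : Fin 4) : ℝ :=
  TT P B x ε (ε a) (ε a) (ε b) (ε b) - TT P B x ε (ε a) (ε b) (ε a) (ε b)

/-- **The Gauss equation**, in the form needed here. -/
theorem Orth.gauss (h : Ind bs P B g x) (hP : ContDiffAt ℝ 3 P x)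
    (hB : ∀ v w, B v w = B w v) {ε : Fin 4 → E} (hε : Orth P B x ε) :
    CondR.scal bs g x - 2 * ∑ j, ∑ k, CondR.ric bs g j k x * bs.repr (ε 3) j * bs.repr (ε 3) k =
      2 * (KK P B x ε 0 1 + KK P B x ε 0 2 + KK P B x ε 1 2) := by
  have h1 : ∑ j, ∑ k, CondR.ric bs g j k x * bs.repr (ε 3) j * bs.repr (ε 3) k =
      RIC P B x ε (ε 3) (ε 3) := by
    rw [(RIC_bilin hB ε).expand bs (ε 3) (ε 3)]
    refine Finset.sum_congr rfl fun j _ => Finset.sum_congr rfl fun k _ => ?_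
    rw [Orth.ric h hP hB hε]
    ring
  rw [h1, Orth.scal h hP hB hε]
  have h2 : ∀ a b, TT P B x ε (ε b) (ε a) (ε b) (ε a) = TT P B x ε (ε a) (ε b) (ε a) (ε b) := by
    intro a b
    rw [TT_symm12 hP, TT_symm34 hP]
  have h3 : ∀ a b, TT P B x ε (ε b) (ε b) (ε a) (ε a) = TT P B x ε (ε a) (ε a) (ε b) (ε b) :=
    fun a b => TT_swap hB ε _ _ _ _
  simp only [RIC, KK, Fin.sum_univ_four]
  rw [h2 0 1, h2 0 2, h2 0 3, h2 1 2, h2 1 3, h2 2 3, h3 0 1, h3 0 2, h3 0 3, h3 1 2, h3 1 3,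
    h3 2 3]
  ring

end Gauss

end CondR
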