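import Pool.Agent.CondR.Max

/-!
# MP_f2e772_gt: the theorem
-/

set_option linter.unusedSectionVars false

noncomputable section

open scoped ContDiff Manifold ENNReal InnerProductSpace Topology

namespace CondR

variable {E : Type*} [NormedAddCommGroup E] [NormedSpace ℝ E]
  {V : Type*} [NormedAddCommGroup V] [InnerProductSpace ℝ V] [FiniteDimensional ℝ V]
  {X : Type*} [TopologicalSpace X] [ChartedSpace E X] [IsManifold 𝓘(ℝ, E) ∞ X] {f : X → V}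

theorem symm_contMDiffAt (p : X) {y : E} (hy : y ∈ (extChartAt 𝓘(ℝ, E) p).target) :
    ContMDiffAt 𝓘(ℝ, E) 𝓘(ℝ, E) ∞ (extChartAt 𝓘(ℝ, E) p).symm y :=
  (contMDiffOn_extChartAt_symm p).contMDiffAt ((isOpen_extChartAt_target p).mem_nhds hy)

theorem loc_cd (hf : ContMDiff 𝓘(ℝ, E) 𝓘(ℝ, V) ∞ f) (p : X) {y : E}
    (hy : y ∈ (extChartAt 𝓘(ℝ, E) p).target) : ContDiffAt ℝ ∞ (loc f p) y :=
  contMDiffAt_iff_contDiffAt.1 (hf.contMDiffAt.comp y (symm_contMDiffAt p hy))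

theorem loc_cd3 (hf : ContMDiff 𝓘(ℝ, E) 𝓘(ℝ, V) ∞ f) (p : X) {y : E}
    (hy : y ∈ (extChartAt 𝓘(ℝ, E) p).target) : ContDiffAt ℝ 3 (loc f p) y :=
  (loc_cd hf p hy).of_le (WithTop.coe_le_coe.2 le_top)

theorem mfderiv_eq (hf : ContMDiff 𝓘(ℝ, E) 𝓘(ℝ, V) ∞ f) (p : X) :
    (mfderiv 𝓘(ℝ, E) 𝓘(ℝ, V) f p : E →L[ℝ] V) =
      fderiv ℝ (loc f p) (pt E p) := by
  have h : MDifferentiableAt 𝓘(ℝ, E) 𝓘(ℝ, V) f p :=
    hf.mdifferentiable (by simp) p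
  refine h.mfderiv.trans ?_
  simp only [writtenInExtChartAt, extChartAt_model_space_eq_id, PartialEquiv.refl_coe,
    Function.id_comp, modelWithCornersSelf_coe, Set.range_id, fderivWithin_univ]
  rfl

theorem loc_pt (p q : X) (hq : q ∈ (extChartAt 𝓘(ℝ, E) p).source) :
    loc f p (extChartAt 𝓘(ℝ, E) p q) = f q := by
  simp only [loc, Function.comp]
  rw [(extChartAt 𝓘(ℝ, E) p).left_inv hq]

theorem rg_le (hf : ContMDiff 𝓘(ℝ, E) 𝓘(ℝ, V) ∞ f) (p q r : X)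
    (hrp : r ∈ (extChartAt 𝓘(ℝ, E) p).source) (hrq : r ∈ (extChartAt 𝓘(ℝ, E) q).source) :
    rg (loc f q) (extChartAt 𝓘(ℝ, E) q r) ≤ rg (loc f p) (extChartAt 𝓘(ℝ, E) p r) := by
  set τ : E → E := extChartAt 𝓘(ℝ, E) p ∘ (extChartAt 𝓘(ℝ, E) q).symm with hτ
  have hyt : extChartAt 𝓘(ℝ, E) q r ∈ (extChartAt 𝓘(ℝ, E) q).target :=
    (extChartAt 𝓘(ℝ, E) q).map_source hrq
  have hr : (extChartAt 𝓘(ℝ, E) q).symm (extChartAt 𝓘(ℝ, E) q r) = r :=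
    (extChartAt 𝓘(ℝ, E) q).left_inv hrq
  have hτr : τ (extChartAt 𝓘(ℝ, E) q r) = extChartAt 𝓘(ℝ, E) p r := by
    simp only [hτ, Function.comp, hr]
  have hsymm := symm_contMDiffAt q hyt
  have hτd : DifferentiableAt ℝ τ (extChartAt 𝓘(ℝ, E) q r) := by
    have h1 : ContMDiffAt 𝓘(ℝ, E) 𝓘(ℝ, E) ∞ (extChartAt 𝓘(ℝ, E) p)
        ((extChartAt 𝓘(ℝ, E) q).symm (extChartAt 𝓘(ℝ, E) q r)) := by
      rw [hr]
      exact contMDiffAt_extChartAt' (by rwa [extChartAt_source] at hrp)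
    have h2 : ContDiffAt ℝ ∞ τ (extChartAt 𝓘(ℝ, E) q r) :=
      contMDiffAt_iff_contDiffAt.1 (h1.comp _ hsymm)
    exact h2.differentiableAt (by simp)
  have hev : loc f q =ᶠ[𝓝 (extChartAt 𝓘(ℝ, E) q r)] loc f p ∘ τ := by
    have h1 : ∀ᶠ y in 𝓝 (extChartAt 𝓘(ℝ, E) q r),
        (extChartAt 𝓘(ℝ, E) q).symm y ∈ (extChartAt 𝓘(ℝ, E) p).source := by
      refine hsymm.continuousAt.eventually_mem ?_
      rw [hr]
      exact (isOpen_extChartAt_source p).mem_nhds hrp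
    filter_upwards [h1] with y hy
    simp only [loc, hτ, Function.comp]
    rw [(extChartAt 𝓘(ℝ, E) p).left_inv hy]
  have hFd : DifferentiableAt ℝ (loc f p) (τ (extChartAt 𝓘(ℝ, E) q r)) := by
    rw [hτr]
    exact diff1 (loc_cd3 hf p ((extChartAt 𝓘(ℝ, E) p).map_source hrp))
  have hcomp : fderiv ℝ (loc f q) (extChartAt 𝓘(ℝ, E) q r) =
      (fderiv ℝ (loc f p) (extChartAt 𝓘(ℝ, E) p r)).comp
        (fderiv ℝ τ (extChartAt 𝓘(ℝ, E) q r)) := by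
    rw [hev.fderiv_eq, fderiv_comp _ hFd hτd, hτr]
  rintro _ ⟨v, rfl⟩
  refine ⟨fderiv ℝ τ (extChartAt 𝓘(ℝ, E) q r) v, ?_⟩
  rw [hcomp]
  rfl

theorem rg_eq (hf : ContMDiff 𝓘(ℝ, E) 𝓘(ℝ, V) ∞ f) (p q r : X)
    (hrp : r ∈ (extChartAt 𝓘(ℝ, E) p).source) (hrq : r ∈ (extChartAt 𝓘(ℝ, E) q).source) :
    rg (loc f q) (extChartAt 𝓘(ℝ, E) q r) = rg (loc f p) (extChartAt 𝓘(ℝ, E) p r) :=
  le_antisymm (rg_le hf p q r hrp hrq) (rg_le hf q p r hrq hrp)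

theorem inj_pt (hf : ContMDiff 𝓘(ℝ, E) 𝓘(ℝ, V) ∞ f)
    (him : ∀ p, Function.Injective (mfderiv 𝓘(ℝ, E) 𝓘(ℝ, V) f p)) (p : X) :
    Function.Injective (fderiv ℝ (loc f p) (pt E p)) := by
  rw [← mfderiv_eq hf]
  exact him p

theorem inj_target [FiniteDimensional ℝ E] (hf : ContMDiff 𝓘(ℝ, E) 𝓘(ℝ, V) ∞ f)
    (him : ∀ p, Function.Injective (mfderiv 𝓘(ℝ, E) 𝓘(ℝ, V) f p)) (p : X)
    {y : E} (hy : y ∈ (extChartAt 𝓘(ℝ, E) p).target) :
    Function.Injective (fderiv ℝ (loc f p) y) := by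
  set q := (extChartAt 𝓘(ℝ, E) p).symm y with hq
  have hqs : q ∈ (extChartAt 𝓘(ℝ, E) p).source := (extChartAt 𝓘(ℝ, E) p).map_target hy
  have hqy : extChartAt 𝓘(ℝ, E) p q = y := (extChartAt 𝓘(ℝ, E) p).right_inv hy
  have h1 := rg_eq hf p q q hqs (mem_extChartAt_source q)
  rw [hqy] at h1
  have h2 : Module.finrank ℝ (rg (loc f p) y) = Module.finrank ℝ E := by
    rw [← h1]
    exact LinearMap.finrank_range_of_inj (f := (fderiv ℝ (loc f q) (pt E q) :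
      E →ₗ[ℝ] V)) (inj_pt hf him q)
  have h3 := LinearMap.finrank_range_add_finrank_ker
    (fderiv ℝ (loc f p) y : E →ₗ[ℝ] V)
  have h5 : Module.finrank ℝ (LinearMap.ker
      (fderiv ℝ (loc f p) y : E →ₗ[ℝ] V)) = 0 := by
    change Module.finrank ℝ (rg (loc f p) y) + _ = _ at h3
    omega
  exact LinearMap.ker_eq_bot.1 (Submodule.finrank_eq_zero.1 h5)

theorem starProjection_congr {K K' : Submodule ℝ (V)} (h : K = K')
    (v : V) : K.starProjection v = K'.starProjection v := by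
  subst h; rfl

/-- The function `|∇ρ|² + ρ` on the manifold. -/
def Wf (E : Type*) [NormedAddCommGroup E] [NormedSpace ℝ E] {X : Type*} [TopologicalSpace X]
    [ChartedSpace E X] (f : X → V) (q : X) : ℝ := Tn (loc f q) (pt E q) + ‖f q‖ ^ 2 / 2

theorem Wf_eq (hf : ContMDiff 𝓘(ℝ, E) 𝓘(ℝ, V) ∞ f) (p q : X)
    (hq : q ∈ (extChartAt 𝓘(ℝ, E) p).source) :
    Wf E f q = Tn (loc f p) (extChartAt 𝓘(ℝ, E) p q) + ‖loc f p (extChartAt 𝓘(ℝ, E) p q)‖ ^ 2 / 2 := by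
  have h1 := rg_eq hf p q q hq (mem_extChartAt_source q)
  have h2 : loc f q (extChartAt 𝓘(ℝ, E) q q) = f q := loc_pt q q (mem_extChartAt_source q)
  have h3 : loc f p (extChartAt 𝓘(ℝ, E) p q) = f q := loc_pt p q hq
  unfold Wf Tn pt
  rw [starProjection_congr h1, h2, h3]

theorem Wf_continuous (bs : Module.Basis (Fin 4) ℝ E) (hf : ContMDiff 𝓘(ℝ, E) 𝓘(ℝ, V) ∞ f)
    (him : ∀ p, Function.Injective (mfderiv 𝓘(ℝ, E) 𝓘(ℝ, V) f p)) :
    Continuous (Wf E f) := by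
  have : FiniteDimensional ℝ E := bs.finiteDimensional_of_finite
  rw [continuous_iff_continuousAt]
  intro p
  have hpt : extChartAt 𝓘(ℝ, E) p p ∈ (extChartAt 𝓘(ℝ, E) p).target :=
    (extChartAt 𝓘(ℝ, E) p).map_source (mem_extChartAt_source p)
  have hcd := loc_cd3 hf p hpt
  have hT : ContinuousAt (Tn (loc f p)) (extChartAt 𝓘(ℝ, E) p p) := by
    refine Tn_continuousAt bs hcd.continuousAt (diff2 hcd).continuousAt ?_
    filter_upwards [(isOpen_extChartAt_target p).mem_nhds hpt] with y hy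
    exact inj_target hf him p hy
  have h1 : ContinuousAt (fun y => Tn (loc f p) y + ‖loc f p y‖ ^ 2 / 2)
      (extChartAt 𝓘(ℝ, E) p p) := hT.add ((hcd.continuousAt.norm.pow 2).div_const 2)
  have h2 : ContinuousAt (fun q => Tn (loc f p) (extChartAt 𝓘(ℝ, E) p q) +
      ‖loc f p (extChartAt 𝓘(ℝ, E) p q)‖ ^ 2 / 2) p :=
    ContinuousAt.comp (f := extChartAt 𝓘(ℝ, E) p) h1 (continuousAt_extChartAt p)
  refine h2.congr ?_
  filter_upwards [(isOpen_extChartAt_source p).mem_nhds (mem_extChartAt_source (I := 𝓘(ℝ, E)) p)]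
    with q hq
  exact (Wf_eq hf p q hq).symm

theorem Wf_le [CompactSpace X] (bs : Module.Basis (Fin 4) ℝ E) (hf : ContMDiff 𝓘(ℝ, E) 𝓘(ℝ, V) ∞ f)
    (him : ∀ p, Function.Injective (mfderiv 𝓘(ℝ, E) 𝓘(ℝ, V) f p))
    (hball : ∀ p, ‖f p‖ ≤ 1) {κ : ℝ} (hκ : κ < 3 / 2)
    (hA : ∀ p u, ‖fderiv ℝ (loc f p) (pt E p) u‖ = 1 → ‖sff (loc f p) (pt E p) u‖ ≤ κ) (q : X) :
    Wf E f q ≤ 1 / 2 := by
  obtain ⟨p, -, hp⟩ := isCompact_univ.exists_isMaxOn ⟨q, Set.mem_univ q⟩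
    (Wf_continuous bs hf him).continuousOn
  have hpt : pt E p ∈ (extChartAt 𝓘(ℝ, E) p).target :=
    (extChartAt 𝓘(ℝ, E) p).map_source (mem_extChartAt_source p)
  have hmax : IsLocalMax (fun y => Tn (loc f p) y + ‖loc f p y‖ ^ 2 / 2) (pt E p) := by
    filter_upwards [(isOpen_extChartAt_target p).mem_nhds hpt] with y hy
    have h1 := Wf_eq hf p ((extChartAt 𝓘(ℝ, E) p).symm y) ((extChartAt 𝓘(ℝ, E) p).map_target hy)
    rw [(extChartAt 𝓘(ℝ, E) p).right_inv hy] at h1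
    have h2 := Wf_eq hf p p (mem_extChartAt_source p)
    have h3 := hp (Set.mem_univ ((extChartAt 𝓘(ℝ, E) p).symm y))
    simp only [Set.mem_ofPred_eq] at h3
    rw [h1, h2] at h3
    exact h3
  have hfp : loc f p (pt E p) = f p := loc_pt p p (mem_extChartAt_source p)
  have h0 := Tn_le_zero_of_localMax (loc_cd3 hf p hpt) (inj_pt hf him p) hκ (hA p)
    (by rw [hfp]; exact hball p) hmax
  have h1 : Wf E f q ≤ Wf E f p := hp (Set.mem_univ q)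
  have h2 : ‖f p‖ ^ 2 ≤ 1 := pow_le_one₀ (norm_nonneg _) (hball p)
  have h3 : Wf E f p = Tn (loc f p) (pt E p) + ‖f p‖ ^ 2 / 2 := rfl
  linarith

theorem main [CompactSpace X] (bs : Module.Basis (Fin 4) ℝ E) (hf : ContMDiff 𝓘(ℝ, E) 𝓘(ℝ, V) ∞ f)
    (him : ∀ p, Function.Injective (mfderiv 𝓘(ℝ, E) 𝓘(ℝ, V) f p))
    (hball : ∀ p, ‖f p‖ ≤ 1) (hcurv : normalCurv E f < ENNReal.ofReal √(9 / 5)) :
    ∃ ψ : X → ℝ, ContMDiff 𝓘(ℝ, E) 𝓘(ℝ, ℝ) ∞ ψ ∧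
      ∀ p, SatR bs (confMetric bs (loc f p) (loc ψ p)) (pt E p) := by
  have hfin : normalCurv E f ≠ ⊤ := (hcurv.trans ENNReal.ofReal_lt_top).ne
  set κ := (normalCurv E f).toReal with hκdef
  have hκ0 : 0 ≤ κ := ENNReal.toReal_nonneg
  have hκ1 : κ < √(9 / 5) := ENNReal.toReal_lt_of_lt_ofReal hcurv
  have hκ2 : κ ^ 2 < 9 / 5 := by
    have h1 : κ ^ 2 < √(9 / 5) ^ 2 := by gcongr
    rwa [Real.sq_sqrt (by norm_num)] at h1
  have hκ3 : κ < 3 / 2 := by nlinarith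
  have hA : ∀ p u, ‖fderiv ℝ (loc f p) (pt E p) u‖ = 1 → ‖sff (loc f p) (pt E p) u‖ ≤ κ := by
    intro p u hu
    have h1 : ‖sff (loc f p) (pt E p) u‖ₑ ≤ normalCurv E f :=
      le_iSup_of_le p (le_iSup_of_le u (le_iSup_of_le hu le_rfl))
    have h2 := ENNReal.toReal_mono hfin h1
    rwa [toReal_enorm] at h2
  refine ⟨fun q => -(9 / 8) * ‖f q‖ ^ 2, ?_, fun p => ?_⟩
  · have h1 : ContDiff ℝ ∞ (fun v : V => -(9 / 8 : ℝ) * ‖v‖ ^ 2) :=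
      contDiff_const.mul (contDiff_norm_sq ℝ)
    exact h1.contMDiff.comp hf
  · have hpt : pt E p ∈ (extChartAt 𝓘(ℝ, E) p).target :=
      (extChartAt 𝓘(ℝ, E) p).map_source (mem_extChartAt_source p)
    have hfp : loc f p (pt E p) = f p := loc_pt p p (mem_extChartAt_source p)
    have hT : ‖(rg (loc f p) (pt E p)).starProjection (loc f p (pt E p))‖ ^ 2 ≤
        (1 - ‖loc f p (pt E p)‖ ^ 2) / 2 := by
      have h1 := Wf_le bs hf him hball hκ3 hA p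
      have h2 : Wf E f p = ‖(rg (loc f p) (pt E p)).starProjection (loc f p (pt E p))‖ ^ 2 +
        ‖f p‖ ^ 2 / 2 := rfl
      rw [hfp] at h2 ⊢
      linarith
    exact satR_of_local (loc_cd3 hf p hpt) (inj_pt hf him p) hκ2 (hA p) hT

end CondR
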