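import Pool.Agent.CondR.Curv
import Pool.Agent.CondR.Alg

/-!
# MP_f2e772_gt: condition (R) at a point
-/

set_option linter.unusedSectionVars false

noncomputable section

open scoped ContDiff Manifold ENNReal InnerProductSpace Topology

namespace CondR

variable {E : Type*} [NormedAddCommGroup E] [NormedSpace ℝ E]
  {V : Type*} [NormedAddCommGroup V] [InnerProductSpace ℝ V] [FiniteDimensional ℝ V]
  {F : E → V} {x : E} {bs : Module.Basis (Fin 4) ℝ E}

/-- The image of the differential. -/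
abbrev rg (F : E → V) (x : E) : Submodule ℝ V :=
  LinearMap.range (fderiv ℝ F x : E →ₗ[ℝ] V)

theorem exists_frame (bs : Module.Basis (Fin 4) ℝ E) (hinj : Function.Injective (fderiv ℝ F x)) (w : E)
    (hw : ‖fderiv ℝ F x w‖ = 1) :
    ∃ e : Fin 4 → E, FOrth F x e ∧ e 3 = w ∧
      ∀ v, (rg F x).starProjection v = ∑ γ, ⟪v, fderiv ℝ F x (e γ)⟫_ℝ • fderiv ℝ F x (e γ) := by
  have hfin : Module.finrank ℝ (rg F x) = Fintype.card (Fin 4) := by
    rw [LinearMap.finrank_range_of_inj hinj]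
    exact Module.finrank_eq_card_basis bs
  set v0 : rg F x := ⟨fderiv ℝ F x w, ⟨w, rfl⟩⟩ with hv0
  have hv : Orthonormal ℝ (Set.domRestrict ({3} : Set (Fin 4)) (fun _ => v0)) := by
    constructor
    · intro i; exact hw
    · intro i j hij; exact absurd (Subsingleton.elim i j) hij
  obtain ⟨b, hb⟩ := hv.exists_orthonormalBasis_extension_of_card_eq hfin
  have h1 : ∀ a, ∃ u, fderiv ℝ F x u = (b a : V) := fun a => (b a).2
  choose e he using h1
  refine ⟨e, fun a c => ?_, ?_, fun v => ?_⟩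
  · rw [he, he]
    exact orthonormal_iff_ite.1 b.orthonormal a c
  · apply hinj
    rw [he, hb 3 (by simp)]
  · rw [Submodule.starProjection_apply, b.orthogonalProjectionOnto_apply_eq_sum]
    simp only [Submodule.coe_sum, Submodule.coe_smul, he, real_inner_comm v]

theorem confMetric_ind (hF : ContDiffAt ℝ 3 F x) :
    Ind bs (PP (9 / 4) F) (Bf V)
      (confMetric bs F (fun y => -(9 / 8) * ‖F y‖ ^ 2)) x := by
  filter_upwards [eventually_cd hF] with y hy
  ext i j
  simp only [confMetric, Matrix.of_apply]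
  rw [PP_metric _ hy, cf, ← Real.exp_nat_mul, rho]
  congr 2
  push_cast
  ring

theorem AA_eq {e : Fin 4 → E}
    (hp : ∀ v, (rg F x).starProjection v =
      ∑ γ, ⟪v, fderiv ℝ F x (e γ)⟫_ℝ • fderiv ℝ F x (e γ)) (a b : E) :
    AA F x e a b = (rg F x)ᗮ.starProjection (D2 F x a b) := by
  rw [Submodule.starProjection_orthogonal_val, hp, AA]

/-- The second fundamental form as a bilinear map. -/
def Sf (F : E → V) (x a b : E) : V :=
  (rg F x)ᗮ.starProjection (D2 F x a b)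

theorem sff_eq (hF : ContDiffAt ℝ 3 F x) (u : E) : sff F x u = Sf F x u u := by
  rw [sff, Sf, D2_eq hF]

theorem Sf_smul (c : ℝ) (u : E) : Sf F x (c • u) (c • u) = c ^ 2 • Sf F x u u := by
  simp only [Sf, D2, map_smul, _root_.smul_apply, smul_smul]
  ring_nf

theorem Sf_le (hF : ContDiffAt ℝ 3 F x) (hinj : Function.Injective (fderiv ℝ F x)) {κ : ℝ}
    (hA : ∀ u, ‖fderiv ℝ F x u‖ = 1 → ‖sff F x u‖ ≤ κ) (u : E) :
    ‖Sf F x u u‖ ≤ κ * ‖fderiv ℝ F x u‖ ^ 2 := by
  by_cases h0 : fderiv ℝ F x u = 0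
  · have : u = 0 := hinj (by rw [h0, map_zero])
    subst this
    simp [Sf, D2]
  · have hn : 0 < ‖fderiv ℝ F x u‖ := norm_pos_iff.2 h0
    have h1 := hA (‖fderiv ℝ F x u‖⁻¹ • u) (by
      rw [map_smul, norm_smul, norm_inv, norm_norm]
      field_simp)
    rw [sff_eq hF, Sf_smul, norm_smul, Real.norm_of_nonneg (by positivity)] at h1
    rw [inv_pow, inv_mul_le_iff₀ (by positivity)] at h1
    linarith

theorem Sf_add (hF : ContDiffAt ℝ 3 F x) (a b : E) :
    Sf F x (a + b) (a + b) = Sf F x a a + Sf F x b b + (2 : ℝ) • Sf F x a b := by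
  have h := D2_symm hF b a
  simp only [Sf, D2, map_add, _root_.add_apply] at *
  rw [h, two_smul]
  abel

theorem Sf_sub (hF : ContDiffAt ℝ 3 F x) (a b : E) :
    Sf F x (a - b) (a - b) = Sf F x a a + Sf F x b b - (2 : ℝ) • Sf F x a b := by
  have h := D2_symm hF b a
  simp only [Sf, D2, map_sub, _root_.sub_apply] at *
  rw [h, two_smul]
  abel

/-- **Condition (R) at a point.** -/
theorem satR_of_local (hF : ContDiffAt ℝ 3 F x) (hinj : Function.Injective (fderiv ℝ F x))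
    {κ : ℝ} (hκ : κ ^ 2 < 9 / 5)
    (hA : ∀ u, ‖fderiv ℝ F x u‖ = 1 → ‖sff F x u‖ ≤ κ)
    (hT : ‖(rg F x).starProjection (F x)‖ ^ 2 ≤ (1 - ‖F x‖ ^ 2) / 2) :
    SatR bs (confMetric bs F (fun y => -(9 / 8) * ‖F y‖ ^ 2)) x := by
  intro u hu
  have hind := confMetric_ind (bs := bs) hF
  have hP := cd_PP (9 / 4) hF
  set g := confMetric bs F (fun y => -(9 / 8) * ‖F y‖ ^ 2) with hg
  set P := PP (9 / 4) F with hPdef
  have hc := cf_pos (9 / 4) F x
  set w : E := ∑ i, u i • bs i with hw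
  have hwi : ∀ i, bs.repr w i = u i := fun i => by
    rw [hw, bs.repr_sum_self]
  have h1 : Bf _ (fderiv ℝ P x w) (fderiv ℝ P x w) = 1 := by
    have hb : Bilin (fun v w => Bf _ (fderiv ℝ P x v) (fderiv ℝ P x w)) :=
      ⟨fun b => ⟨fun v w => by simp, fun c v => by simp⟩,
        fun a => ⟨fun v w => by simp, fun c v => by simp⟩⟩
    rw [hb.expand bs w w, ← hu]
    refine Finset.sum_congr rfl fun i _ => Finset.sum_congr rfl fun j _ => ?_
    rw [hind.apply, hwi, hwi]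
    ring
  rw [PP_metric _ hF, real_inner_self_eq_norm_sq] at h1
  have h2 : ‖fderiv ℝ F x (cf (9 / 4) F x • w)‖ = 1 := by
    rw [map_smul, norm_smul, Real.norm_of_nonneg hc.le]
    have h3 : (cf (9 / 4) F x * ‖fderiv ℝ F x w‖) ^ 2 = 1 := by rw [mul_pow]; exact h1
    exact (pow_eq_one_iff_of_nonneg (by positivity) (by norm_num)).1 h3
  obtain ⟨e, he, he3, hp⟩ := exists_frame bs hinj _ h2
  have hO := scl_orth (9 / 4) hF he
  have hgauss := Orth.gauss hind hP Bf_symm hO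
  have hs3 : scl (9 / 4) F x e 3 = w := by
    rw [scl, he3, smul_smul, inv_mul_cancel₀ hc.ne', one_smul]
  rw [hs3] at hgauss
  simp only [hwi] at hgauss
  rw [← sub_pos, hgauss]
  -- the bracket
  have hk01 := KK_val (9 / 4) hF he 0 1 (by decide)
  have hk02 := KK_val (9 / 4) hF he 0 2 (by decide)
  have hk12 := KK_val (9 / 4) hF he 1 2 (by decide)
  have hunit : ∀ a, ‖fderiv ℝ F x (e a)‖ ^ 2 = 1 := by
    intro a
    rw [← real_inner_self_eq_norm_sq, he a a, if_pos rfl]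
  have hplus : ∀ a b, a ≠ b → ‖fderiv ℝ F x (e a + e b)‖ ^ 2 = 2 := by
    intro a b hab
    rw [← real_inner_self_eq_norm_sq, map_add, inner_add_left, inner_add_right, inner_add_right,
      he a a, he a b, he b a, he b b, if_pos rfl, if_neg hab, if_neg (Ne.symm hab), if_pos rfl]
    norm_num
  have hminus : ∀ a b, a ≠ b → ‖fderiv ℝ F x (e a - e b)‖ ^ 2 = 2 := by
    intro a b hab
    rw [← real_inner_self_eq_norm_sq, map_sub, inner_sub_left, inner_sub_right, inner_sub_right,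
      he a a, he a b, he b a, he b b, if_pos rfl, if_neg hab, if_neg (Ne.symm hab), if_pos rfl]
    norm_num
  have hA' := Sf_le hF hinj hA
  have b1 : ∀ a, ‖Sf F x (e a) (e a)‖ ≤ κ := by
    intro a
    have := hA' (e a)
    rwa [hunit, mul_one] at this
  have b2 : ∀ a b, a ≠ b → ‖Sf F x (e a) (e a) + Sf F x (e b) (e b) +
      (2 : ℝ) • Sf F x (e a) (e b)‖ ≤ 2 * κ := by
    intro a b hab
    have := hA' (e a + e b)
    rw [hplus a b hab, Sf_add hF] at this
    linarith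
  have b3 : ∀ a b, a ≠ b → ‖Sf F x (e a) (e a) + Sf F x (e b) (e b) -
      (2 : ℝ) • Sf F x (e a) (e b)‖ ≤ 2 * κ := by
    intro a b hab
    have := hA' (e a - e b)
    rw [hminus a b hab, Sf_sub hF] at this
    linarith
  have hAS : ∀ a b, AA F x e a b = Sf F x a b := fun a b => AA_eq hp a b
  -- the tangential part
  have hTsum : ‖(rg F x).starProjection (F x)‖ ^ 2 =
      ∑ γ, ⟪F x, fderiv ℝ F x (e γ)⟫_ℝ ^ 2 := by
    rw [← real_inner_self_eq_norm_sq, hp]
    simp only [sum_inner, inner_sum, real_inner_smul_left, real_inner_smul_right, he _ _,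
      mul_ite, mul_one, mul_zero, Finset.sum_ite_eq', Finset.mem_univ, if_true]
    exact Finset.sum_congr rfl fun γ _ => by ring
  set T := ‖(rg F x).starProjection (F x)‖ ^ 2 with hTd
  have hpyth : ‖F x‖ ^ 2 = T + ‖(rg F x)ᗮ.starProjection (F x)‖ ^ 2 :=
    Submodule.norm_sq_eq_add_norm_sq_starProjection (F x) (rg F x)
  have hH : ⟪F x, Sf F x (e 0) (e 0) + Sf F x (e 1) (e 1) + Sf F x (e 2) (e 2)⟫_ℝ ^ 2 ≤
      (‖F x‖ ^ 2 - T) * ‖Sf F x (e 0) (e 0) + Sf F x (e 1) (e 1) + Sf F x (e 2) (e 2)‖ ^ 2 := by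
    have hmem : Sf F x (e 0) (e 0) + Sf F x (e 1) (e 1) + Sf F x (e 2) (e 2) ∈ (rg F x)ᗮ :=
      Submodule.add_mem _ (Submodule.add_mem _ (Submodule.starProjection_apply_mem _ _)
        (Submodule.starProjection_apply_mem _ _)) (Submodule.starProjection_apply_mem _ _)
    set H := Sf F x (e 0) (e 0) + Sf F x (e 1) (e 1) + Sf F x (e 2) (e 2)
    have h4 : ⟪F x, H⟫_ℝ = ⟪(rg F x)ᗮ.starProjection (F x), H⟫_ℝ := by
      rw [Submodule.starProjection_orthogonal_val, inner_sub_left,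
        Submodule.inner_right_of_mem_orthogonal (Submodule.starProjection_apply_mem _ _) hmem,
        sub_zero]
    rw [h4]
    have h5 : ‖F x‖ ^ 2 - T = ‖(rg F x)ᗮ.starProjection (F x)‖ ^ 2 := by linarith
    rw [h5, ← mul_pow]
    exact sq_le_sq' (neg_le_of_abs_le (abs_real_inner_le_norm _ _))
      (le_of_abs_le (abs_real_inner_le_norm _ _))
  have hy3 : ⟪F x, fderiv ℝ F x (e 3)⟫_ℝ ^ 2 ≤ T := by
    rw [hTsum]
    exact Finset.single_le_sum (f := fun γ => ⟪F x, fderiv ℝ F x (e γ)⟫_ℝ ^ 2)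
      (fun γ _ => sq_nonneg _) (Finset.mem_univ 3)
  have hTx : T ≤ ‖F x‖ ^ 2 := by
    have : 0 ≤ ‖(rg F x)ᗮ.starProjection (F x)‖ ^ 2 := by positivity
    linarith
  have hfin := final_ineq (F x) (Sf F x (e 0) (e 0)) (Sf F x (e 1) (e 1)) (Sf F x (e 2) (e 2))
    (Sf F x (e 0) (e 1)) (Sf F x (e 0) (e 2)) (Sf F x (e 1) (e 2)) hκ (b1 0) (b1 1) (b1 2)
    (b2 0 1 (by decide)) (b3 0 1 (by decide)) (b2 0 2 (by decide)) (b3 0 2 (by decide))
    (b2 1 2 (by decide)) (b3 1 2 (by decide)) hT hy3 hTx hH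
  have hbrk : brk (9 / 4) F x e 0 1 + brk (9 / 4) F x e 0 2 + brk (9 / 4) F x e 1 2 > 0 := by
    refine lt_of_lt_of_eq hfin ?_
    simp only [brk, hAS]
    rw [hTsum]
    simp only [Fin.sum_univ_four, inner_add_right]
    ring
  have hsum : cf (9 / 4) F x ^ 2 * (KK P (Bf _) x (scl (9 / 4) F x e) 0 1 +
      KK P (Bf _) x (scl (9 / 4) F x e) 0 2 + KK P (Bf _) x (scl (9 / 4) F x e) 1 2) > 0 := by
    rw [mul_add, mul_add, hk01, hk02, hk12]
    exact hbrk
  have := (mul_pos_iff_of_pos_left (pow_pos hc 2)).1 hsum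
  linarith

end CondR
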