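import Pool.Agent.CondR.Local

/-!
# MP_f2e772_gt: the maximum principle for `|∇ρ|² + ρ`
-/

set_option linter.unusedSectionVars false

noncomputable section

open scoped ContDiff Manifold ENNReal InnerProductSpace Topology

namespace CondR

variable {E : Type*} [NormedAddCommGroup E] [NormedSpace ℝ E]
  {V : Type*} [NormedAddCommGroup V] [InnerProductSpace ℝ V] [FiniteDimensional ℝ V]
  {F : E → V} {x : E}

/-- The squared length of the tangential part of the position vector. -/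
def Tn (F : E → V) (y : E) : ℝ :=
  ‖(rg F y).starProjection (F y)‖ ^ 2

theorem var_le (y n : E) :
    2 * ⟪F y, fderiv ℝ F y n⟫_ℝ - ‖fderiv ℝ F y n‖ ^ 2 ≤ Tn F y := by
  have h1 : ⟪F y, fderiv ℝ F y n⟫_ℝ =
      ⟪(rg F y).starProjection (F y), fderiv ℝ F y n⟫_ℝ := by
    have h2 := (rg F y).starProjection_inner_eq_zero (F y) (fderiv ℝ F y n) ⟨n, rfl⟩
    rw [inner_sub_left] at h2
    linarith
  have h3 := sq_nonneg ‖(rg F y).starProjection (F y) - fderiv ℝ F y n‖
  rw [norm_sub_sq_real] at h3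
  rw [h1, Tn]
  linarith

theorem var_eq (y n : E) (hn : fderiv ℝ F y n = (rg F y).starProjection (F y)) :
    2 * ⟪F y, fderiv ℝ F y n⟫_ℝ - ‖fderiv ℝ F y n‖ ^ 2 = Tn F y := by
  have h1 : ⟪F y, fderiv ℝ F y n⟫_ℝ =
      ⟪(rg F y).starProjection (F y), fderiv ℝ F y n⟫_ℝ := by
    have h2 := (rg F y).starProjection_inner_eq_zero (F y) (fderiv ℝ F y n) ⟨n, rfl⟩
    rw [inner_sub_left] at h2
    linarith
  rw [h1, hn, real_inner_self_eq_norm_sq, Tn]
  ring

/-- At a local maximum of `|∇ρ|² + ρ` the gradient vanishes. -/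
theorem Tn_le_zero_of_localMax (hF : ContDiffAt ℝ 3 F x)
    (hinj : Function.Injective (fderiv ℝ F x)) {κ : ℝ} (hκ : κ < 3 / 2)
    (hA : ∀ u, ‖fderiv ℝ F x u‖ = 1 → ‖sff F x u‖ ≤ κ) (hball : ‖F x‖ ≤ 1)
    (hmax : IsLocalMax (fun y => Tn F y + ‖F y‖ ^ 2 / 2) x) : Tn F x ≤ 0 := by
  obtain ⟨n, hn⟩ : ∃ n, fderiv ℝ F x n = (rg F x).starProjection (F x) :=
    (rg F x).starProjection_apply_mem (F x)
  set w : E → ℝ := fun y => 2 * ⟪F y, fderiv ℝ F y n⟫_ℝ -
    ⟪fderiv ℝ F y n, fderiv ℝ F y n⟫_ℝ + rho F y with hw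
  have hwle : ∀ y, w y ≤ Tn F y + ‖F y‖ ^ 2 / 2 := by
    intro y
    have := var_le (F := F) y n
    rw [← real_inner_self_eq_norm_sq] at this
    simp only [hw, rho]
    linarith
  have hweq : w x = Tn F x + ‖F x‖ ^ 2 / 2 := by
    have := var_eq (F := F) x n hn
    rw [← real_inner_self_eq_norm_sq] at this
    simp only [hw, rho]
    linarith
  have hwmax : IsLocalMax w x := by
    filter_upwards [hmax] with y hy
    rw [hweq]
    exact (hwle y).trans hy
  have hd0 := hwmax.fderiv_eq_zero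
  have d1 := (diff1 hF)
  have d2 := (hasFDerivAt_D1 hF n).differentiableAt
  have e1 : DifferentiableAt ℝ (fun y => 2 * ⟪F y, fderiv ℝ F y n⟫_ℝ) x :=
    (d1.inner ℝ d2).const_mul 2
  have e2 : DifferentiableAt ℝ (fun y => ⟪fderiv ℝ F y n, fderiv ℝ F y n⟫_ℝ) x :=
    d2.inner ℝ d2
  have e3 := diff1 (cd_rho hF)
  have hval : fderiv ℝ w x n = 2 * (⟪F x, D2 F x n n⟫_ℝ + ⟪fderiv ℝ F x n, fderiv ℝ F x n⟫_ℝ) -
      2 * ⟪fderiv ℝ F x n, D2 F x n n⟫_ℝ + ⟪F x, fderiv ℝ F x n⟫_ℝ := by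
    have h1 : fderiv ℝ w x = fderiv ℝ (fun y => 2 * ⟪F y, fderiv ℝ F y n⟫_ℝ) x -
        fderiv ℝ (fun y => ⟪fderiv ℝ F y n, fderiv ℝ F y n⟫_ℝ) x + fderiv ℝ (rho F) x := by
      rw [← fderiv_fun_sub e1 e2, ← fderiv_fun_add (e1.fun_sub e2) e3]
    rw [h1, fderiv_const_mul (d1.inner ℝ d2), _root_.add_apply, _root_.sub_apply,
      _root_.smul_apply, fderiv_inner_apply ℝ d1 d2, fderiv_inner_apply ℝ d2 d2, fderiv_rho d1,
      ← D2_eq hF, real_inner_comm (fderiv ℝ F x n) (D2 F x n n), smul_eq_mul]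
    ring
  rw [hd0] at hval
  have hT1 : ⟪F x, fderiv ℝ F x n⟫_ℝ = Tn F x := by
    have := var_eq (F := F) x n hn
    have h2 : ‖fderiv ℝ F x n‖ ^ 2 = Tn F x := by rw [hn]; rfl
    linarith
  have hT2 : ⟪fderiv ℝ F x n, fderiv ℝ F x n⟫_ℝ = Tn F x := by
    rw [real_inner_self_eq_norm_sq, hn]; rfl
  have hS : ⟪F x, D2 F x n n⟫_ℝ - ⟪fderiv ℝ F x n, D2 F x n n⟫_ℝ =
      ⟪(rg F x)ᗮ.starProjection (F x), Sf F x n n⟫_ℝ := by
    rw [← inner_sub_left, hn, ← Submodule.starProjection_orthogonal_val, Sf]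
    have h3 := (rg F x)ᗮ.starProjection_inner_eq_zero (D2 F x n n)
      ((rg F x)ᗮ.starProjection (F x)) (Submodule.starProjection_apply_mem _ _)
    rw [inner_sub_left] at h3
    rw [real_inner_comm (D2 F x n n), real_inner_comm ((rg F x)ᗮ.starProjection (D2 F x n n))]
    linarith
  have hS2 : |⟪(rg F x)ᗮ.starProjection (F x), Sf F x n n⟫_ℝ| ≤ κ * Tn F x := by
    refine (abs_real_inner_le_norm _ _).trans ?_
    have h4 : ‖(rg F x)ᗮ.starProjection (F x)‖ ≤ 1 :=
      (Submodule.norm_starProjection_apply_le _ _).trans hball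
    have h5 := Sf_le hF hinj hA n
    have h6 : ‖fderiv ℝ F x n‖ ^ 2 = Tn F x := by rw [hn]; rfl
    rw [h6] at h5
    calc _ ≤ 1 * (κ * Tn F x) := by
          gcongr
      _ = _ := one_mul _
  have hS3 := (abs_le.1 hS2).1
  have h0 : (0 : ℝ) = 3 * Tn F x + 2 * ⟪(rg F x)ᗮ.starProjection (F x), Sf F x n n⟫_ℝ := by
    have : (0 : E →L[ℝ] ℝ) n = 0 := rfl
    rw [this] at hval
    rw [← hS]
    linarith
  by_contra hneg
  push Not at hneg
  nlinarith

/-- The tangential part depends continuously on the point. -/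
theorem cont_aux {Y E' : Type*} [TopologicalSpace Y] [NormedAddCommGroup E']
    [InnerProductSpace ℝ E'] [FiniteDimensional ℝ E'] {G : Y → V} {D : Y → (E' →L[ℝ] V)} {x : Y}
    (hF : ContinuousAt G x) (hD : ContinuousAt D x)
    (hinj : ∀ᶠ y in 𝓝 x, Function.Injective (D y)) :
    ContinuousAt (fun y => ‖(LinearMap.range (D y : E' →ₗ[ℝ] V)).starProjection (G y)‖ ^ 2) x := by
  set L : Y → (E' →L[ℝ] E') := fun y =>
    (ContinuousLinearMap.adjoint (D y)).comp (D y) with hL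
  have hadj : ContinuousAt (fun y => ContinuousLinearMap.adjoint (D y)) x :=
    (ContinuousLinearMap.adjoint (𝕜 := ℝ) (E := E')
      (F := V)).continuous.continuousAt.comp hD
  have hLc : ContinuousAt L x := hadj.clm_comp hD
  have hLinj : ∀ y, Function.Injective (D y) → Function.Injective (L y) := by
    intro y hy
    rw [injective_iff_map_eq_zero]
    intro v hv
    have h1 : ⟪L y v, v⟫_ℝ = ‖D y v‖ ^ 2 := by
      simp only [hL, ContinuousLinearMap.comp_apply]
      rw [ContinuousLinearMap.adjoint_inner_left, real_inner_self_eq_norm_sq]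
    rw [hv, inner_zero_left] at h1
    have h2 : D y v = 0 := by
      rw [← norm_eq_zero]
      exact pow_eq_zero_iff (n := 2) (by norm_num) |>.1 h1.symm
    exact hy (by rw [h2, map_zero])
  have hequiv : ∀ y, Function.Injective (D y) → ∃ e : E' ≃L[ℝ] E',
      (e : E' →L[ℝ] E') = L y := by
    intro y hy
    refine ⟨(LinearEquiv.ofInjectiveEndo (L y : E' →ₗ[ℝ] E') (hLinj y hy)).toContinuousLinearEquiv,
      ?_⟩
    ext v : 1
    rfl
  have hTe : ∀ᶠ y in 𝓝 x, ‖(LinearMap.range (D y : E' →ₗ[ℝ] V)).starProjection (G y)‖ ^ 2 =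
      ‖D y ((L y).inverse (ContinuousLinearMap.adjoint (D y) (G y)))‖ ^ 2 := by
    filter_upwards [hinj] with y hy
    obtain ⟨e, he⟩ := hequiv y hy
    set n := (L y).inverse (ContinuousLinearMap.adjoint (D y) (G y)) with hn
    have h1 : L y n = ContinuousLinearMap.adjoint (D y) (G y) := by
      rw [hn, ← he, ContinuousLinearMap.inverse_equiv]
      simp
    have h2 : (LinearMap.range (D y : E' →ₗ[ℝ] V)).starProjection (G y) = D y n := by
      refine Submodule.eq_starProjection_of_mem_of_inner_eq_zero ⟨n, rfl⟩ ?_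
      rintro _ ⟨v, rfl⟩
      have h3 : ⟪G y - D y n, D y v⟫_ℝ =
          ⟪ContinuousLinearMap.adjoint (D y) (G y - D y n), v⟫_ℝ := by
        rw [ContinuousLinearMap.adjoint_inner_left]
      have h4 : ContinuousLinearMap.adjoint (D y) (G y - D y n) = 0 := by
        rw [map_sub, ← h1]
        simp [hL]
      rw [h4, inner_zero_left] at h3
      exact h3
    rw [h2]
  have hinvc : ContinuousAt (fun y => (L y).inverse) x := by
    obtain ⟨e, he⟩ := hequiv x hinj.self_of_nhds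
    have h1 : ContinuousAt (ContinuousLinearMap.inverse : (E' →L[ℝ] E') → (E' →L[ℝ] E')) (L x) := by
      rw [← he]
      exact (contDiffAt_map_inverse (𝕜 := ℝ) (n := 0) e).continuousAt
    exact ContinuousAt.comp (f := L) h1 hLc
  have hcont : ContinuousAt (fun y => ‖D y ((L y).inverse
      (ContinuousLinearMap.adjoint (D y) (G y)))‖ ^ 2) x :=
    (hD.clm_apply (hinvc.clm_apply (hadj.clm_apply hF))).norm.pow 2
  exact hcont.congr (hTe.mono fun y hy => hy.symm)

theorem Tn_continuousAt (bs : Module.Basis (Fin 4) ℝ E) (hF : ContinuousAt F x)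
    (hD : ContinuousAt (fderiv ℝ F) x)
    (hinj : ∀ᶠ y in 𝓝 x, Function.Injective (fderiv ℝ F y)) : ContinuousAt (Tn F) x := by
  have : FiniteDimensional ℝ E := bs.finiteDimensional_of_finite
  let e : EuclideanSpace ℝ (Fin 4) ≃L[ℝ] E :=
    (EuclideanSpace.equiv (Fin 4) ℝ).trans bs.equivFunL.symm
  have h1 : ContinuousAt (fun y => (fderiv ℝ F y).comp (e : EuclideanSpace ℝ (Fin 4) →L[ℝ] E)) x :=
    hD.clm_comp continuousAt_const
  have h2 : ∀ᶠ y in 𝓝 x, Function.Injective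
      ((fderiv ℝ F y).comp (e : EuclideanSpace ℝ (Fin 4) →L[ℝ] E)) := by
    filter_upwards [hinj] with y hy
    exact hy.comp e.injective
  have h3 := cont_aux hF h1 h2
  refine h3.congr (Filter.Eventually.of_forall fun y => ?_)
  have h4 : LinearMap.range ((fderiv ℝ F y).comp (e : EuclideanSpace ℝ (Fin 4) →L[ℝ] E) :
      EuclideanSpace ℝ (Fin 4) →ₗ[ℝ] V) = rg F y := by
    ext v
    constructor
    · rintro ⟨z, rfl⟩
      exact ⟨e z, rfl⟩
    · rintro ⟨z, rfl⟩
      exact ⟨e.symm z, by simp⟩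
  simp only [Tn]
  congr 3
  simp only [h4]

end CondR
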